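import Mathlib

/-!
Identities for the icosahedral forms of Klein: five binary sextics `t 0, ..., t 4`, permuted by
the binary icosahedral group, and `fm`, one twentieth of the sum of their squares.
-/

namespace Pool.Agent.Lib.MP_1d3ef4_gt

/-- Klein's sextics `t_n`, `z` a primitive fifth root of unity. -/
def t (z : ℂ) (n : ℕ) (x y : ℂ) : ℂ :=
  z ^ (3 * n) * x ^ 6 + 2 * z ^ (2 * n) * x ^ 5 * y - 5 * z ^ n * x ^ 4 * y ^ 2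
    - 5 * z ^ (4 * n) * x ^ 2 * y ^ 4 - 2 * z ^ (3 * n) * x * y ^ 5 + z ^ (2 * n) * y ^ 6

/-- Klein's form of degree twelve. -/
def fm (x y : ℂ) : ℂ := x * y * (x ^ 10 + 11 * x ^ 5 * y ^ 5 - y ^ 10)

/-- Upper left entry of the second generator. -/
noncomputable def TA (z : ℂ) : ℂ := -(z + 2 * z ^ 2 - 2 * z ^ 3 - z ^ 4) / 5

/-- Upper right entry of the second generator. -/
noncomputable def TB (z : ℂ) : ℂ := (2 * z - z ^ 2 + z ^ 3 - 2 * z ^ 4) / 5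

variable {z : ℂ}

theorem tS0 (hz : z ^ 4 + z ^ 3 + z ^ 2 + z + 1 = 0) (x y : ℂ) :
    t z 0 (z ^ 3 * x) (z ^ 2 * y) = t z 1 x y := by
  unfold t
  linear_combination (((-1)*z^3 + (1)*z^4 + (-1)*z^8 + (1)*z^9 + (-1)*z^13 + (1)*z^14)*x^6*y^0 + ((-2)*z^2 + (2)*z^3 + (-2)*z^7 + (2)*z^8 + (-2)*z^12 + (2)*z^13)*x^5*y^1 + ((5)*z^1 + (-5)*z^2 + (5)*z^6 + (-5)*z^7 + (5)*z^11 + (-5)*z^12)*x^4*y^2 + ((5)*z^4 + (-5)*z^5 + (5)*z^9 + (-5)*z^10)*x^2*y^4 + ((2)*z^3 + (-2)*z^4 + (2)*z^8 + (-2)*z^9)*x^1*y^5 + ((-1)*z^2 + (1)*z^3 + (-1)*z^7 + (1)*z^8)*x^0*y^6) * hz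

theorem tS1 (hz : z ^ 4 + z ^ 3 + z ^ 2 + z + 1 = 0) (x y : ℂ) :
    t z 1 (z ^ 3 * x) (z ^ 2 * y) = t z 2 x y := by
  unfold t
  linear_combination (((-1)*z^6 + (1)*z^7 + (-1)*z^11 + (1)*z^12 + (-1)*z^16 + (1)*z^17)*x^6*y^0 + ((-2)*z^4 + (2)*z^5 + (-2)*z^9 + (2)*z^10 + (-2)*z^14 + (2)*z^15)*x^5*y^1 + ((5)*z^2 + (-5)*z^3 + (5)*z^7 + (-5)*z^8 + (5)*z^12 + (-5)*z^13)*x^4*y^2 + ((5)*z^8 + (-5)*z^9 + (5)*z^13 + (-5)*z^14)*x^2*y^4 + ((2)*z^6 + (-2)*z^7 + (2)*z^11 + (-2)*z^12)*x^1*y^5 + ((-1)*z^4 + (1)*z^5 + (-1)*z^9 + (1)*z^10)*x^0*y^6) * hz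

theorem tS2 (hz : z ^ 4 + z ^ 3 + z ^ 2 + z + 1 = 0) (x y : ℂ) :
    t z 2 (z ^ 3 * x) (z ^ 2 * y) = t z 3 x y := by
  unfold t
  linear_combination (((-1)*z^9 + (1)*z^10 + (-1)*z^14 + (1)*z^15 + (-1)*z^19 + (1)*z^20)*x^6*y^0 + ((-2)*z^6 + (2)*z^7 + (-2)*z^11 + (2)*z^12 + (-2)*z^16 + (2)*z^17)*x^5*y^1 + ((5)*z^3 + (-5)*z^4 + (5)*z^8 + (-5)*z^9 + (5)*z^13 + (-5)*z^14)*x^4*y^2 + ((5)*z^12 + (-5)*z^13 + (5)*z^17 + (-5)*z^18)*x^2*y^4 + ((2)*z^9 + (-2)*z^10 + (2)*z^14 + (-2)*z^15)*x^1*y^5 + ((-1)*z^6 + (1)*z^7 + (-1)*z^11 + (1)*z^12)*x^0*y^6) * hz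

theorem tS3 (hz : z ^ 4 + z ^ 3 + z ^ 2 + z + 1 = 0) (x y : ℂ) :
    t z 3 (z ^ 3 * x) (z ^ 2 * y) = t z 4 x y := by
  unfold t
  linear_combination (((-1)*z^12 + (1)*z^13 + (-1)*z^17 + (1)*z^18 + (-1)*z^22 + (1)*z^23)*x^6*y^0 + ((-2)*z^8 + (2)*z^9 + (-2)*z^13 + (2)*z^14 + (-2)*z^18 + (2)*z^19)*x^5*y^1 + ((5)*z^4 + (-5)*z^5 + (5)*z^9 + (-5)*z^10 + (5)*z^14 + (-5)*z^15)*x^4*y^2 + ((5)*z^16 + (-5)*z^17 + (5)*z^21 + (-5)*z^22)*x^2*y^4 + ((2)*z^12 + (-2)*z^13 + (2)*z^17 + (-2)*z^18)*x^1*y^5 + ((-1)*z^8 + (1)*z^9 + (-1)*z^13 + (1)*z^14)*x^0*y^6) * hz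

theorem tS4 (hz : z ^ 4 + z ^ 3 + z ^ 2 + z + 1 = 0) (x y : ℂ) :
    t z 4 (z ^ 3 * x) (z ^ 2 * y) = t z 0 x y := by
  unfold t
  linear_combination (((-1)*z^0 + (1)*z^1 + (-1)*z^5 + (1)*z^6 + (-1)*z^10 + (1)*z^11 + (-1)*z^15 + (1)*z^16 + (-1)*z^20 + (1)*z^21 + (-1)*z^25 + (1)*z^26)*x^6*y^0 + ((-2)*z^0 + (2)*z^1 + (-2)*z^5 + (2)*z^6 + (-2)*z^10 + (2)*z^11 + (-2)*z^15 + (2)*z^16 + (-2)*z^20 + (2)*z^21)*x^5*y^1 + ((5)*z^0 + (-5)*z^1 + (5)*z^5 + (-5)*z^6 + (5)*z^10 + (-5)*z^11 + (5)*z^15 + (-5)*z^16)*x^4*y^2 + ((5)*z^0 + (-5)*z^1 + (5)*z^5 + (-5)*z^6 + (5)*z^10 + (-5)*z^11 + (5)*z^15 + (-5)*z^16 + (5)*z^20 + (-5)*z^21 + (5)*z^25 + (-5)*z^26)*x^2*y^4 + ((2)*z^0 + (-2)*z^1 + (2)*z^5 + (-2)*z^6 + (2)*z^10 + (-2)*z^11 + (2)*z^15 + (-2)*z^16 + (2)*z^20 + (-2)*z^21)*x^1*y^5 + ((-1)*z^0 + (1)*z^1 + (-1)*z^5 + (1)*z^6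 + (-1)*z^10 + (1)*z^11 + (-1)*z^15 + (1)*z^16)*x^0*y^6) * hz

theorem tT0 (hz : z ^ 4 + z ^ 3 + z ^ 2 + z + 1 = 0) (x y : ℂ) :
    t z 0 (TA z * x + TB z * y) (TB z * x - TA z * y) = t z 0 x y := by
  unfold t TA TB
  linear_combination (((-1)*z^0 + (1)*z^1 + (-1)*z^5 + (626/625)*z^6 + (-23/625)*z^7 + (39/625)*z^8 + (-13/625)*z^9 + (-529/625)*z^10 + (478/625)*z^11 + (-139/625)*z^12 + (247/625)*z^13 + (-139/625)*z^14 + (-147/625)*z^15 + (96/625)*z^16 + (-13/625)*z^17 + (39/625)*z^18 + (-23/625)*z^19 + (1/625)*z^20)*x^6*y^0 + ((-2)*z^0 + (2)*z^1 + (-2)*z^5 + (1272/625)*z^6 + (-6/625)*z^7 + (-142/625)*z^8 + (214/625)*z^9 + (-1638/625)*z^10 + (2516/625)*z^11 + (-2058/625)*z^12 + (1934/625)*z^13 + (-2058/625)*z^14 + (1266/625)*z^15 + (-388/625)*z^16 + (214/625)*z^17 + (-142/625)*z^18 + (-6/625)*z^19 + (22/625)*z^20)*x^5*y^1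 + ((5)*z^0 + (-5)*z^1 + (5)*z^5 + (-626/125)*z^6 + (23/125)*z^7 + (-39/125)*z^8 + (13/125)*z^9 + (529/125)*z^10 + (-478/125)*z^11 + (139/125)*z^12 + (-247/125)*z^13 + (139/125)*z^14 + (147/125)*z^15 + (-96/125)*z^16 + (13/125)*z^17 + (-39/125)*z^18 + (23/125)*z^19 + (-1/125)*z^20)*x^4*y^2 + ((5)*z^0 + (-5)*z^1 + (5)*z^5 + (-626/125)*z^6 + (23/125)*z^7 + (-39/125)*z^8 + (13/125)*z^9 + (529/125)*z^10 + (-478/125)*z^11 + (139/125)*z^12 + (-247/125)*z^13 + (139/125)*z^14 + (147/125)*z^15 + (-96/125)*z^16 + (13/125)*z^17 + (-39/125)*z^18 + (23/125)*z^19 + (-1/125)*z^20)*x^2*y^4 + ((2)*z^0 + (-2)*z^1 + (2)*z^5 + (-1272/625)*z^6 + (6/625)*z^7 + (142/625)*z^8 + (-214/625)*z^9 + (1638/625)*z^10 + (-2516/625)*z^11 + (2058/625)*z^12 + (-1934/625)*z^13 + (2058/625)*z^14 + (-1266/625)*z^15 + (388/625)*z^16 + (-214/625)*z^17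 + (142/625)*z^18 + (6/625)*z^19 + (-22/625)*z^20)*x^1*y^5 + ((-1)*z^0 + (1)*z^1 + (-1)*z^5 + (626/625)*z^6 + (-23/625)*z^7 + (39/625)*z^8 + (-13/625)*z^9 + (-529/625)*z^10 + (478/625)*z^11 + (-139/625)*z^12 + (247/625)*z^13 + (-139/625)*z^14 + (-147/625)*z^15 + (96/625)*z^16 + (-13/625)*z^17 + (39/625)*z^18 + (-23/625)*z^19 + (1/625)*z^20)*x^0*y^6) * hz

theorem tT1 (hz : z ^ 4 + z ^ 3 + z ^ 2 + z + 1 = 0) (x y : ℂ) :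
    t z 1 (TA z * x + TB z * y) (TB z * x - TA z * y) = t z 2 x y := by
  unfold t TA TB
  linear_combination (((-1)*z^6 + (3121/3125)*z^7 + (-12/3125)*z^8 + (-54/3125)*z^9 + (46/625)*z^10 + (-658/625)*z^11 + (3582/3125)*z^12 + (-1454/3125)*z^13 + (1542/3125)*z^14 + (-367/625)*z^15 + (126/625)*z^16 + (-177/3125)*z^17 + (594/3125)*z^18 + (-472/3125)*z^19 + (21/625)*z^20 + (-18/625)*z^21 + (99/3125)*z^22 + (-3/3125)*z^23 + (-16/3125)*z^24)*x^6*y^0 + ((-2)*z^4 + (2)*z^5 + (28/3125)*z^7 + (124/3125)*z^8 + (-6492/3125)*z^9 + (1184/625)*z^10 + (32/625)*z^11 + (276/3125)*z^12 + (1498/3125)*z^13 + (-7684/3125)*z^14 + (1362/625)*z^15 + (-964/625)*z^16 + (6464/3125)*z^17 + (-4418/3125)*z^18 + (1144/3125)*z^19 + (-146/625)*z^20 + (82/625)*z^21 + (232/3125)*z^22 + (-204/3125)*z^23 + (32/3125)*z^24)*x^5*y^1 + ((5)*z^2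 + (-5)*z^3 + (3112/625)*z^7 + (-3104/625)*z^8 + (122/625)*z^9 + (-42/125)*z^10 + (-11/125)*z^11 + (3084/625)*z^12 + (-3123/625)*z^13 + (1214/625)*z^14 + (-286/125)*z^15 + (217/125)*z^16 + (546/625)*z^17 + (-1067/625)*z^18 + (781/625)*z^19 + (-122/125)*z^20 + (94/125)*z^21 + (-242/625)*z^22 + (44/625)*z^23 + (8/625)*z^24)*x^4*y^2 + ((8/625)*z^7 + (-76/625)*z^8 + (88/625)*z^9 + (52/125)*z^10 + (-132/125)*z^11 + (996/625)*z^12 + (-2172/625)*z^13 + (3416/625)*z^14 + (-684/125)*z^15 + (684/125)*z^16 + (-3416/625)*z^17 + (2172/625)*z^18 + (-996/625)*z^19 + (132/125)*z^20 + (-52/125)*z^21 + (-88/625)*z^22 + (76/625)*z^23 + (-8/625)*z^24)*x^3*y^3 + ((8/625)*z^7 + (3169/625)*z^8 + (-3367/625)*z^9 + (94/125)*z^10 + (-122/125)*z^11 + (781/625)*z^12 + (2058/625)*z^13 + (-2579/625)*z^14 + (217/125)*z^15 + (-286/125)*z^16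 + (1214/625)*z^17 + (2/625)*z^18 + (-41/625)*z^19 + (-11/125)*z^20 + (-42/125)*z^21 + (122/625)*z^22 + (21/625)*z^23 + (-13/625)*z^24)*x^2*y^4 + ((2)*z^6 + (-6282/3125)*z^7 + (204/3125)*z^8 + (-232/3125)*z^9 + (-82/625)*z^10 + (1396/625)*z^11 + (-7394/3125)*z^12 + (4418/3125)*z^13 + (-6464/3125)*z^14 + (964/625)*z^15 + (-112/625)*z^16 + (1434/3125)*z^17 + (-1498/3125)*z^18 + (-276/3125)*z^19 + (-32/625)*z^20 + (66/625)*z^21 + (242/3125)*z^22 + (-124/3125)*z^23 + (-28/3125)*z^24)*x^1*y^5 + ((-1)*z^4 + (1)*z^5 + (-16/3125)*z^7 + (-3/3125)*z^8 + (-3026/3125)*z^9 + (607/625)*z^10 + (21/625)*z^11 + (-472/3125)*z^12 + (594/3125)*z^13 + (-3302/3125)*z^14 + (751/625)*z^15 + (-367/625)*z^16 + (1542/3125)*z^17 + (-1454/3125)*z^18 + (457/3125)*z^19 + (-33/625)*z^20 + (46/625)*z^21 + (-54/3125)*z^22 + (-12/3125)*z^23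 + (-4/3125)*z^24)*x^0*y^6) * hz

theorem tT2 (hz : z ^ 4 + z ^ 3 + z ^ 2 + z + 1 = 0) (x y : ℂ) :
    t z 2 (TA z * x + TB z * y) (TB z * x - TA z * y) = t z 1 x y := by
  unfold t TA TB
  linear_combination (((-1)*z^3 + (1)*z^4 + (-3129/3125)*z^8 + (3101/3125)*z^9 + (3/3125)*z^10 + (93/3125)*z^11 + (246/3125)*z^12 + (-3767/3125)*z^13 + (3507/3125)*z^14 + (-739/3125)*z^15 + (1156/3125)*z^16 + (-233/3125)*z^17 + (-554/625)*z^18 + (2558/3125)*z^19 + (-1356/3125)*z^20 + (1509/3125)*z^21 + (-872/3125)*z^22 + (57/3125)*z^23 + (-41/3125)*z^24 + (-33/3125)*z^25 + (117/3125)*z^26 + (-16/3125)*z^27 + (-16/3125)*z^28)*x^6*y^0 + ((-2)*z^2 + (2)*z^3 + (-2)*z^7 + (6278/3125)*z^8 + (78/3125)*z^9 + (-186/3125)*z^10 + (-436/3125)*z^11 + (-5322/3125)*z^12 + (6494/3125)*z^13 + (-2374/3125)*z^14 + (3928/3125)*z^15 + (-5402/3125)*z^16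 + (2936/3125)*z^17 + (-988/625)*z^18 + (7464/3125)*z^19 + (-6498/3125)*z^20 + (6512/3125)*z^21 + (-5406/3125)*z^22 + (2886/3125)*z^23 + (-1918/3125)*z^24 + (1006/3125)*z^25 + (76/3125)*z^26 + (-208/3125)*z^27 + (32/3125)*z^28)*x^5*y^1 + ((5)*z^1 + (-5)*z^2 + (5)*z^6 + (-5)*z^7 + (-13/625)*z^8 + (17/625)*z^9 + (136/625)*z^10 + (2861/625)*z^11 + (-3333/625)*z^12 + (851/625)*z^13 + (-806/625)*z^14 + (807/625)*z^15 + (1822/625)*z^16 + (-2486/625)*z^17 + (244/125)*z^18 + (-1739/625)*z^19 + (1878/625)*z^20 + (-377/625)*z^21 + (-229/625)*z^22 + (59/625)*z^23 + (-347/625)*z^24 + (554/625)*z^25 + (-306/625)*z^26 + (48/625)*z^27 + (8/625)*z^28)*x^4*y^2 + ((8/625)*z^8 + (-92/625)*z^9 + (104/625)*z^10 + (424/625)*z^11 + (-1032/625)*z^12 + (884/625)*z^13 + (-984/625)*z^14 + (1668/625)*z^15 + (-1152/625)*z^16 + (-44/625)*z^17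 + (44/625)*z^19 + (1152/625)*z^20 + (-1668/625)*z^21 + (984/625)*z^22 + (-884/625)*z^23 + (1032/625)*z^24 + (-424/625)*z^25 + (-104/625)*z^26 + (92/625)*z^27 + (-8/625)*z^28)*x^3*y^3 + ((5)*z^4 + (-5)*z^5 + (8/625)*z^8 + (3173/625)*z^9 + (-3431/625)*z^10 + (554/625)*z^11 + (-347/625)*z^12 + (59/625)*z^13 + (2896/625)*z^14 + (-3502/625)*z^15 + (1878/625)*z^16 + (-1739/625)*z^17 + (244/125)*z^18 + (639/625)*z^19 + (-1303/625)*z^20 + (807/625)*z^21 + (-806/625)*z^22 + (851/625)*z^23 + (-208/625)*z^24 + (-264/625)*z^25 + (136/625)*z^26 + (17/625)*z^27 + (-13/625)*z^28)*x^2*y^4 + ((2)*z^3 + (-2)*z^4 + (6218/3125)*z^8 + (-6042/3125)*z^9 + (-76/3125)*z^10 + (-1006/3125)*z^11 + (1918/3125)*z^12 + (3364/3125)*z^13 + (-844/3125)*z^14 + (-6512/3125)*z^15 + (6498/3125)*z^16 + (-7464/3125)*z^17 + (2238/625)*z^18 + (-9186/3125)*z^19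 + (5402/3125)*z^20 + (-3928/3125)*z^21 + (2374/3125)*z^22 + (-244/3125)*z^23 + (-928/3125)*z^24 + (436/3125)*z^25 + (186/3125)*z^26 + (-78/3125)*z^27 + (-28/3125)*z^28)*x^1*y^5 + ((-1)*z^2 + (1)*z^3 + (-1)*z^7 + (3109/3125)*z^8 + (-16/3125)*z^9 + (117/3125)*z^10 + (-33/3125)*z^11 + (-3166/3125)*z^12 + (3182/3125)*z^13 + (-872/3125)*z^14 + (1509/3125)*z^15 + (-1356/3125)*z^16 + (-567/3125)*z^17 + (71/625)*z^18 + (-233/3125)*z^19 + (1156/3125)*z^20 + (-739/3125)*z^21 + (382/3125)*z^22 + (-642/3125)*z^23 + (246/3125)*z^24 + (93/3125)*z^25 + (3/3125)*z^26 + (-24/3125)*z^27 + (-4/3125)*z^28)*x^0*y^6) * hz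

theorem tT3 (hz : z ^ 4 + z ^ 3 + z ^ 2 + z + 1 = 0) (x y : ℂ) :
    t z 3 (TA z * x + TB z * y) (TB z * x - TA z * y) = t z 4 x y := by
  unfold t TA TB
  linear_combination (((-4/3125)*z^9 + (-24/3125)*z^10 + (-9/3125)*z^11 + (-2962/3125)*z^12 + (3188/3125)*z^13 + (-51/625)*z^14 + (-497/3125)*z^15 + (788/3125)*z^16 + (-3688/3125)*z^17 + (4991/3125)*z^18 + (-3006/3125)*z^19 + (464/625)*z^20 + (-448/625)*z^21 + (121/3125)*z^22 + (1004/3125)*z^23 + (-732/3125)*z^24 + (972/3125)*z^25 + (-648/3125)*z^26 + (9/625)*z^27 + (-58/3125)*z^28 + (-3/3125)*z^29 + (104/3125)*z^30 + (-16/3125)*z^31 + (-16/3125)*z^32)*x^6*y^0 + ((-2)*z^8 + (6278/3125)*z^9 + (78/3125)*z^10 + (-232/3125)*z^11 + (-376/3125)*z^12 + (-5286/3125)*z^13 + (1288/625)*z^14 + (-1266/3125)*z^15 + (324/3125)*z^16 + (-444/3125)*z^17 + (-3882/3125)*z^18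 + (5432/3125)*z^19 + (-506/625)*z^20 + (458/625)*z^21 + (-3902/3125)*z^22 + (2522/3125)*z^23 + (-2046/3125)*z^24 + (4396/3125)*z^25 + (-3924/3125)*z^26 + (338/625)*z^27 + (-1354/3125)*z^28 + (896/3125)*z^29 + (72/3125)*z^30 + (-208/3125)*z^31 + (32/3125)*z^32)*x^5*y^1 + ((5)*z^4 + (-5)*z^5 + (3112/625)*z^9 + (-3108/625)*z^10 + (132/625)*z^11 + (-254/625)*z^12 + (-194/625)*z^13 + (762/125)*z^14 + (-3669/625)*z^15 + (996/625)*z^16 + (-1976/625)*z^17 + (1727/625)*z^18 + (1613/625)*z^19 + (-273/125)*z^20 + (-48/125)*z^21 + (-978/625)*z^22 + (878/625)*z^23 + (596/625)*z^24 + (-56/625)*z^25 + (-686/625)*z^26 + (13/25)*z^27 + (-286/625)*z^28 + (494/625)*z^29 + (-302/625)*z^30 + (48/625)*z^31 + (8/625)*z^32)*x^4*y^2 + ((8/625)*z^9 + (-92/625)*z^10 + (88/625)*z^11 + (424/625)*z^12 + (-876/625)*z^13 + (152/125)*z^14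 + (-1316/625)*z^15 + (2024/625)*z^16 + (-1424/625)*z^17 + (1328/625)*z^18 + (-1768/625)*z^19 + (204/125)*z^20 + (-204/125)*z^21 + (1768/625)*z^22 + (-1328/625)*z^23 + (1424/625)*z^24 + (-2024/625)*z^25 + (1316/625)*z^26 + (-152/125)*z^27 + (876/625)*z^28 + (-424/625)*z^29 + (-88/625)*z^30 + (92/625)*z^31 + (-8/625)*z^32)*x^3*y^3 + ((8/625)*z^9 + (48/625)*z^10 + (-302/625)*z^11 + (494/625)*z^12 + (-286/625)*z^13 + (13/25)*z^14 + (-686/625)*z^15 + (3069/625)*z^16 + (-2529/625)*z^17 + (878/625)*z^18 + (-978/625)*z^19 + (-48/125)*z^20 + (352/125)*z^21 + (-1512/625)*z^22 + (1727/625)*z^23 + (-1976/625)*z^24 + (996/625)*z^25 + (-544/625)*z^26 + (137/125)*z^27 + (-194/625)*z^28 + (-254/625)*z^29 + (132/625)*z^30 + (17/625)*z^31 + (-13/625)*z^32)*x^2*y^4 + ((-32/3125)*z^9 + (208/3125)*z^10 + (-72/3125)*z^11 + (5354/3125)*z^12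 + (-4896/3125)*z^13 + (-338/625)*z^14 + (3924/3125)*z^15 + (-4396/3125)*z^16 + (8296/3125)*z^17 + (-8772/3125)*z^18 + (3902/3125)*z^19 + (-458/625)*z^20 + (506/625)*z^21 + (818/3125)*z^22 + (-2368/3125)*z^23 + (444/3125)*z^24 + (-324/3125)*z^25 + (1266/3125)*z^26 + (-38/625)*z^27 + (-964/3125)*z^28 + (376/3125)*z^29 + (232/3125)*z^30 + (-78/3125)*z^31 + (-28/3125)*z^32)*x^1*y^5 + ((-1)*z^8 + (3109/3125)*z^9 + (-16/3125)*z^10 + (104/3125)*z^11 + (-3/3125)*z^12 + (-3183/3125)*z^13 + (634/625)*z^14 + (-648/3125)*z^15 + (972/3125)*z^16 + (-732/3125)*z^17 + (-2121/3125)*z^18 + (3246/3125)*z^19 + (-448/625)*z^20 + (464/625)*z^21 + (-3006/3125)*z^22 + (1866/3125)*z^23 + (-563/3125)*z^24 + (788/3125)*z^25 + (-497/3125)*z^26 + (-51/625)*z^27 + (63/3125)*z^28 + (163/3125)*z^29 + (-9/3125)*z^30 + (-24/3125)*z^31 + (-4/3125)*z^32)*x^0*y^6)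 * hz

theorem tT4 (hz : z ^ 4 + z ^ 3 + z ^ 2 + z + 1 = 0) (x y : ℂ) :
    t z 4 (TA z * x + TB z * y) (TB z * x - TA z * y) = t z 3 x y := by
  unfold t TA TB
  linear_combination (((-1)*z^9 + (3121/3125)*z^10 + (-24/3125)*z^11 + (-9/3125)*z^12 + (151/3125)*z^13 + (-2992/3125)*z^14 + (108/125)*z^15 + (-28/625)*z^16 + (-23/625)*z^17 + (1048/3125)*z^18 + (-3183/3125)*z^19 + (117/125)*z^20 + (-403/625)*z^21 + (1904/3125)*z^22 + (-93/625)*z^23 + (-1154/3125)*z^24 + (14/25)*z^25 + (-494/625)*z^26 + (2373/3125)*z^27 + (-1593/3125)*z^28 + (54/125)*z^29 + (-146/625)*z^30 + (8/625)*z^31 + (-28/3125)*z^32 + (-16/3125)*z^33 + (104/3125)*z^34 + (-16/3125)*z^35 + (-16/3125)*z^36)*x^6*y^0 + ((-2)*z^6 + (2)*z^7 + (28/3125)*z^10 + (-6172/3125)*z^11 + (6018/3125)*z^12 + (-422/3125)*z^13 + (1024/3125)*z^14 + (46/625)*z^15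 + (-1492/625)*z^16 + (284/125)*z^17 + (-3156/3125)*z^18 + (6566/3125)*z^19 + (-1128/625)*z^20 + (-74/125)*z^21 + (482/3125)*z^22 + (754/625)*z^23 + (-232/3125)*z^24 + (54/625)*z^25 + (-244/125)*z^26 + (6114/3125)*z^27 + (-4084/3125)*z^28 + (1164/625)*z^29 + (-1036/625)*z^30 + (92/125)*z^31 + (-1464/3125)*z^32 + (892/3125)*z^33 + (72/3125)*z^34 + (-208/3125)*z^35 + (32/3125)*z^36)*x^5*y^1 + ((5)*z^3 + (-5)*z^4 + (5)*z^8 + (-5)*z^9 + (-13/625)*z^10 + (17/625)*z^11 + (132/625)*z^12 + (2867/625)*z^13 + (-3309/625)*z^14 + (139/125)*z^15 + (-26/25)*z^16 + (241/125)*z^17 + (1066/625)*z^18 + (-1826/625)*z^19 + (-32/125)*z^20 + (-49/125)*z^21 + (1648/625)*z^22 + (-47/125)*z^23 + (-23/625)*z^24 + (-353/125)*z^25 + (271/125)*z^26 + (-514/625)*z^27 + (1054/625)*z^28 + (-108/125)*z^29 + (-86/125)*z^30 + (78/125)*z^31 +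 (-346/625)*z^32 + (498/625)*z^33 + (-302/625)*z^34 + (48/625)*z^35 + (8/625)*z^36)*x^4*y^2 + ((8/625)*z^10 + (-92/625)*z^11 + (88/625)*z^12 + (408/625)*z^13 + (-876/625)*z^14 + (36/25)*z^15 + (-288/125)*z^16 + (368/125)*z^17 + (-1116/625)*z^18 + (636/625)*z^19 + (-12/25)*z^20 + (-72/125)*z^21 + (332/625)*z^22 + (-332/625)*z^24 + (72/125)*z^25 + (12/25)*z^26 + (-636/625)*z^27 + (1116/625)*z^28 + (-368/125)*z^29 + (288/125)*z^30 + (-36/25)*z^31 + (876/625)*z^32 + (-408/625)*z^33 + (-88/625)*z^34 + (92/625)*z^35 + (-8/625)*z^36)*x^3*y^3 + ((8/625)*z^10 + (48/625)*z^11 + (2823/625)*z^12 + (-2627/625)*z^13 + (-346/625)*z^14 + (78/125)*z^15 + (-86/125)*z^16 + (517/125)*z^17 + (-2071/625)*z^18 + (-514/625)*z^19 + (271/125)*z^20 + (-353/125)*z^21 + (3102/625)*z^22 + (-672/125)*z^23 + (1648/625)*z^24 + (-49/125)*z^25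 + (-32/125)*z^26 + (1299/625)*z^27 + (-2059/625)*z^28 + (241/125)*z^29 + (-26/25)*z^30 + (139/125)*z^31 + (-184/625)*z^32 + (-258/625)*z^33 + (132/625)*z^34 + (17/625)*z^35 + (-13/625)*z^36)*x^2*y^4 + ((2)*z^9 + (-6282/3125)*z^10 + (208/3125)*z^11 + (-72/3125)*z^12 + (-892/3125)*z^13 + (7714/3125)*z^14 + (-342/125)*z^15 + (1036/625)*z^16 + (-1164/625)*z^17 + (4084/3125)*z^18 + (136/3125)*z^19 + (-6/125)*z^20 + (-54/625)*z^21 + (232/3125)*z^22 + (-754/625)*z^23 + (5768/3125)*z^24 + (-176/125)*z^25 + (1128/625)*z^26 + (-6566/3125)*z^27 + (3156/3125)*z^28 + (-34/125)*z^29 + (242/625)*z^30 + (-46/625)*z^31 + (-1024/3125)*z^32 + (422/3125)*z^33 + (232/3125)*z^34 + (-78/3125)*z^35 + (-28/3125)*z^36)*x^1*y^5 + ((-1)*z^6 + (1)*z^7 + (-16/3125)*z^10 + (-3141/3125)*z^11 + (3229/3125)*z^12 + (-16/3125)*z^13 + (-28/3125)*z^14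 + (8/625)*z^15 + (-771/625)*z^16 + (179/125)*z^17 + (-1593/3125)*z^18 + (2373/3125)*z^19 + (-494/625)*z^20 + (-11/25)*z^21 + (1971/3125)*z^22 + (-93/625)*z^23 + (1904/3125)*z^24 + (-403/625)*z^25 + (-8/125)*z^26 + (-58/3125)*z^27 + (1048/3125)*z^28 + (-23/625)*z^29 + (-28/625)*z^30 + (-17/125)*z^31 + (133/3125)*z^32 + (151/3125)*z^33 + (-9/3125)*z^34 + (-24/3125)*z^35 + (-4/3125)*z^36)*x^0*y^6) * hz

theorem sum_sq (hz : z ^ 4 + z ^ 3 + z ^ 2 + z + 1 = 0) (x y : ℂ) :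
    t z 0 x y ^ 2 + t z 1 x y ^ 2 + t z 2 x y ^ 2 + t z 3 x y ^ 2 + t z 4 x y ^ 2
      = 20 * fm x y := by
  unfold t fm
  linear_combination (((1)*z^0 + (-1)*z^1 + (1)*z^5 + (-1)*z^7 + (1)*z^10 + (-1)*z^13 + (1)*z^15 + (-1)*z^19 + (1)*z^20)*x^12*y^0 + ((-16)*z^0 + (16)*z^1 + (-12)*z^5 + (12)*z^6 + (-8)*z^10 + (8)*z^11 + (-4)*z^15 + (4)*z^16)*x^11*y^1 + ((-6)*z^0 + (6)*z^1 + (-6)*z^4 + (6)*z^6 + (-6)*z^8 + (6)*z^11 + (-6)*z^12)*x^10*y^2 + ((-20)*z^0 + (20)*z^1 + (-20)*z^3 + (20)*z^4 + (-20)*z^5 + (20)*z^7 + (-20)*z^8)*x^9*y^3 + ((15)*z^0 + (-15)*z^1 + (25)*z^2 + (-25)*z^3 + (25)*z^4 + (-10)*z^5 + (10)*z^6 + (-10)*z^7 + (10)*z^8 + (-10)*z^10 + (10)*z^11 + (-10)*z^12 + (10)*z^13 + (-10)*z^14 + (10)*z^16 + (-10)*z^17 + (10)*z^18 + (-10)*z^19 + (10)*z^23 + (-10)*z^24)*x^8*y^4 + ((-24)*z^0 + (24)*z^1 + (-24)*z^5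 + (24)*z^7 + (-24)*z^10 + (24)*z^13 + (-24)*z^15 + (24)*z^19 + (-24)*z^20)*x^7*y^5 + ((-176)*z^0 + (176)*z^1 + (-132)*z^5 + (132)*z^6 + (-88)*z^10 + (88)*z^11 + (-44)*z^15 + (44)*z^16)*x^6*y^6 + ((24)*z^0 + (-24)*z^1 + (24)*z^4 + (-24)*z^6 + (24)*z^8 + (-24)*z^11 + (24)*z^12)*x^5*y^7 + ((15)*z^0 + (-15)*z^1 + (-10)*z^3 + (10)*z^4 + (15)*z^5 + (-25)*z^6 + (10)*z^7 + (15)*z^8 + (-25)*z^9 + (25)*z^10 + (-25)*z^11 + (25)*z^13 + (-25)*z^14 + (25)*z^15 + (-25)*z^17 + (25)*z^18 + (-25)*z^19 + (25)*z^20 + (-25)*z^22 + (25)*z^23 + (-25)*z^27 + (25)*z^28)*x^4*y^8 + ((20)*z^0 + (-20)*z^1 + (20)*z^5 + (-20)*z^6 + (20)*z^7 + (-20)*z^8 + (20)*z^10 + (-20)*z^11 + (20)*z^12 + (-20)*z^13 + (20)*z^14 + (-20)*z^16 + (20)*z^17 + (-20)*z^18 + (20)*z^19 + (-20)*z^23 + (20)*z^24)*x^3*y^9 + ((-6)*z^0 + (6)*z^1 + (-6)*z^5 + (6)*z^7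 + (-6)*z^10 + (6)*z^13 + (-6)*z^15 + (6)*z^19 + (-6)*z^20)*x^2*y^10 + ((16)*z^0 + (-16)*z^1 + (12)*z^5 + (-12)*z^6 + (8)*z^10 + (-8)*z^11 + (4)*z^15 + (-4)*z^16)*x^1*y^11 + ((1)*z^0 + (-1)*z^1 + (1)*z^4 + (-1)*z^6 + (1)*z^8 + (-1)*z^11 + (1)*z^12)*x^0*y^12) * hz

theorem detT (hz : z ^ 4 + z ^ 3 + z ^ 2 + z + 1 = 0) :
    TA z * (-TA z) - TB z * TB z = 1 := by
  unfold TA TB
  linear_combination (-(((1)*z^0 + (-1)*z^1 + (1/5)*z^2 + (-1/5)*z^3 + (1/5)*z^4))) * hz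

theorem sum_K (hz : z ^ 4 + z ^ 3 + z ^ 2 + z + 1 = 0) (x y : ℂ) :
    t z 0 x y + z ^ 4 * t z 1 x y + z ^ 8 * t z 2 x y + z ^ 12 * t z 3 x y
      + z ^ 16 * t z 4 x y = -25 * (x ^ 4 * y ^ 2) := by
  unfold t
  linear_combination (((1)*z^0 + (-1)*z^1 + (1)*z^5 + (-1)*z^6 + (1)*z^7 + (-1)*z^8 + (1)*z^10 + (-1)*z^11 + (1)*z^12 + (-1)*z^13 + (1)*z^14 + (-1)*z^16 + (1)*z^17 + (-1)*z^18 + (1)*z^19 + (-1)*z^23 + (1)*z^24)*x^6*y^0 + ((2)*z^0 + (-2)*z^1 + (2)*z^5 + (-2)*z^7 + (2)*z^10 + (-2)*z^13 + (2)*z^15 + (-2)*z^19 + (2)*z^20)*x^5*y^1 + ((20)*z^0 + (-20)*z^1 + (15)*z^5 + (-15)*z^6 + (10)*z^10 + (-10)*z^11 + (5)*z^15 + (-5)*z^16)*x^4*y^2 + ((-5)*z^0 + (5)*z^1 + (-5)*z^5 + (5)*z^6 + (-5)*z^8 + (5)*z^9 + (-5)*z^10 + (5)*z^11 + (-5)*z^13 + (5)*z^14 + (-5)*z^15 + (5)*z^17 + (-5)*z^18 + (5)*z^19 + (-5)*z^20 + (5)*z^22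 + (-5)*z^23 + (5)*z^27 + (-5)*z^28)*x^2*y^4 + ((-2)*z^0 + (2)*z^1 + (-2)*z^5 + (2)*z^6 + (-2)*z^7 + (2)*z^8 + (-2)*z^10 + (2)*z^11 + (-2)*z^12 + (2)*z^13 + (-2)*z^14 + (2)*z^16 + (-2)*z^17 + (2)*z^18 + (-2)*z^19 + (2)*z^23 + (-2)*z^24)*x^1*y^5 + ((1)*z^0 + (-1)*z^1 + (1)*z^5 + (-1)*z^7 + (1)*z^10 + (-1)*z^13 + (1)*z^15 + (-1)*z^19 + (1)*z^20)*x^0*y^6) * hz

end Pool.Agent.Lib.MP_1d3ef4_gt
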