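import Mathlib
import Pool.Agent.Lib.MP_1d3ef4_gt.Forms

/-!
The correspondence between even permutations of five letters and matrices, up to sign, which
permute Klein's five sextics.
-/

namespace Pool.Agent.Lib.MP_1d3ef4_gt

open Matrix
open scoped MatrixGroups

/-- A primitive fifth root of unity. -/
noncomputable def ze : ℂ := Complex.exp (2 * Real.pi * Complex.I / (5 : ℕ))

theorem ze_prim : IsPrimitiveRoot ze 5 := Complex.isPrimitiveRoot_exp 5 (by norm_num)

theorem ze5 : ze ^ 5 = 1 := ze_prim.pow_eq_one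

theorem hze : ze ^ 4 + ze ^ 3 + ze ^ 2 + ze + 1 = 0 := by
  have h1 : ze ≠ 1 := by
    intro h
    have := ze_prim.ne_one (by norm_num)
    exact this h
  have h2 : (ze - 1) * (ze ^ 4 + ze ^ 3 + ze ^ 2 + ze + 1) = 0 := by
    linear_combination ze5
  rcases mul_eq_zero.mp h2 with h | h
  · exact absurd (sub_eq_zero.mp h) h1
  · exact h

/-- The matrix `M` carries the sextics by the permutation `σ`. -/
def R (M : SL(2, ℂ)) (σ : Equiv.Perm (Fin 5)) : Prop :=
  ∀ (n : Fin 5) (u : Fin 2 → ℂ),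
    t ze (σ n) ((M.1 *ᵥ u) 0) ((M.1 *ᵥ u) 1) = t ze n (u 0) (u 1)

theorem R_one : R 1 1 := by
  intro n u
  simp

theorem R_mul {M N : SL(2, ℂ)} {σ τ : Equiv.Perm (Fin 5)} (h : R M σ) (h' : R N τ) :
    R (M * N) (σ * τ) := by
  intro n u
  have e : ((M * N : SL(2, ℂ)) : Matrix (Fin 2) (Fin 2) ℂ) *ᵥ u = M.1 *ᵥ (N.1 *ᵥ u) := by
    rw [Matrix.mulVec_mulVec]
    rfl
  rw [e, Equiv.Perm.mul_apply, h (τ n) (N.1 *ᵥ u), h' n u]

theorem R_inv {M : SL(2, ℂ)} {σ : Equiv.Perm (Fin 5)} (h : R M σ) : R M⁻¹ σ⁻¹ := by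
  intro n u
  have e : M.1 *ᵥ ((M⁻¹ : SL(2, ℂ)).1 *ᵥ u) = u := by
    rw [Matrix.mulVec_mulVec]
    have : M.1 * (M⁻¹ : SL(2, ℂ)).1 = 1 := by
      have := congrArg Subtype.val (mul_inv_cancel M)
      exact this
    rw [this, Matrix.one_mulVec]
  have := h (σ⁻¹ n) ((M⁻¹ : SL(2, ℂ)).1 *ᵥ u)
  rw [e] at this
  rw [← this]
  simp

/-- The form of degree twelve is preserved. -/
theorem R_form {M : SL(2, ℂ)} {σ : Equiv.Perm (Fin 5)} (h : R M σ) (u : Fin 2 → ℂ) :
    fm ((M.1 *ᵥ u) 0) ((M.1 *ᵥ u) 1) = fm (u 0) (u 1) := by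
  have e : ∀ a b : ℂ, ∑ n : Fin 5, t ze n a b ^ 2 = 20 * fm a b := by
    intro a b
    rw [← sum_sq hze a b, Fin.sum_univ_five]
    rfl
  have h1 : ∑ n : Fin 5, t ze n ((M.1 *ᵥ u) 0) ((M.1 *ᵥ u) 1) ^ 2
      = ∑ n : Fin 5, t ze n (u 0) (u 1) ^ 2 := by
    rw [← Equiv.sum_comp σ]
    exact Finset.sum_congr rfl fun n _ => by rw [h n u]
  rw [e, e] at h1
  linear_combination (1 / 20) * h1

theorem R_neg {M : SL(2, ℂ)} {σ : Equiv.Perm (Fin 5)} (h : R M σ) : R (-M) σ := by
  intro n u
  have e : ((-M : SL(2, ℂ)) : Matrix (Fin 2) (Fin 2) ℂ) *ᵥ u = -(M.1 *ᵥ u) := by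
    rw [Matrix.SpecialLinearGroup.coe_neg, Matrix.neg_mulVec]
  rw [e, ← h n u]
  simp only [Pi.neg_apply, t]
  ring

theorem R_ker {M : SL(2, ℂ)} (h : R M 1) : M = 1 ∨ M = -1 := by
  have key : ∀ u : Fin 2 → ℂ, ((M.1 *ᵥ u) 0) ^ 4 * ((M.1 *ᵥ u) 1) ^ 2 = u 0 ^ 4 * u 1 ^ 2 := by
    intro u
    have e1 := sum_K hze ((M.1 *ᵥ u) 0) ((M.1 *ᵥ u) 1)
    have e2 := sum_K hze (u 0) (u 1)
    have h0 := h 0 u
    have h1 := h 1 u
    have h2 := h 2 u
    have h3 := h 3 u
    have h4 := h 4 u
    simp only [Equiv.Perm.one_apply] at h0 h1 h2 h3 h4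
    have c0 : ((0 : Fin 5) : ℕ) = 0 := rfl
    have c1 : ((1 : Fin 5) : ℕ) = 1 := rfl
    have c2 : ((2 : Fin 5) : ℕ) = 2 := rfl
    have c3 : ((3 : Fin 5) : ℕ) = 3 := rfl
    have c4 : ((4 : Fin 5) : ℕ) = 4 := rfl
    rw [c0] at h0
    rw [c1] at h1
    rw [c2] at h2
    rw [c3] at h3
    rw [c4] at h4
    rw [h0, h1, h2, h3, h4, e2] at e1
    linear_combination (1 / 25) * e1
  have hdet : M.1 0 0 * M.1 1 1 - M.1 0 1 * M.1 1 0 = 1 := by
    have := M.2
    rw [Matrix.det_fin_two] at this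
    exact this
  have k10 := key ![1, 0]
  have k01 := key ![0, 1]
  have k11 := key ![1, 1]
  have k21 := key ![2, 1]
  simp [Matrix.mulVec, dotProduct, Fin.sum_univ_two] at k10 k01 k11 k21
  set a := M.1 0 0 with ha
  set b := M.1 0 1 with hb
  set c := M.1 1 0 with hc
  set d := M.1 1 1 with hd
  have hb0 : b = 0 := by
    by_contra hb0
    have hd0 : d = 0 := by
      rcases k01 with h | h
      · exact absurd h hb0
      · exact h
    have hc0 : c ≠ 0 := by
      intro hc0
      rw [hd0, hc0] at hdet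
      simp at hdet
    have ha0 : a = 0 := by
      rcases k10 with h | h
      · exact h
      · exact absurd h hc0
    rw [ha0, hd0] at k11 k21
    simp at k11 k21
    have : (b ^ 4 * c ^ 2) * 4 = 16 := by linear_combination k21
    rw [k11] at this
    norm_num at this
  have had : a * d = 1 := by rw [hb0] at hdet; linear_combination hdet
  have ha0 : a ≠ 0 := by
    intro h
    rw [h] at had
    simp at had
  have hc0 : c = 0 := by
    rcases k10 with h | h
    · exact absurd h ha0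
    · exact h
  have ha2 : a ^ 2 = 1 := by
    rw [hb0, hc0] at k11
    simp only [add_zero, zero_add] at k11
    linear_combination k11 - (a ^ 2 * (a * d + 1)) * had
  have hda : d = a := by
    have : a * (d - a) = 0 := by linear_combination had - ha2
    rcases mul_eq_zero.mp this with h | h
    · exact absurd h ha0
    · exact sub_eq_zero.mp h
  have h3 : (a - 1) * (a + 1) = 0 := by linear_combination ha2
  rcases mul_eq_zero.mp h3 with h | h
  · left
    have h1 : a = 1 := sub_eq_zero.mp h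
    ext i j
    fin_cases i <;> fin_cases j
    · simpa [ha] using h1
    · simpa [hb] using hb0
    · simpa [hc] using hc0
    · simp
      rw [← hd, hda, h1]
  · right
    have h1 : a = -1 := by linear_combination h
    ext i j
    fin_cases i <;> fin_cases j
    · simpa [ha] using h1
    · simpa [hb] using hb0
    · simpa [hc] using hc0
    · simp
      rw [← hd, hda, h1]

theorem R_unique {M N : SL(2, ℂ)} {σ : Equiv.Perm (Fin 5)} (h : R M σ) (h' : R N σ) :
    N = M ∨ N = -M := by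
  have h1 := R_mul (R_inv h) h'
  rw [inv_mul_cancel] at h1
  rcases R_ker h1 with h2 | h2
  · left
    rw [inv_mul_eq_one] at h2
    exact h2.symm
  · right
    rw [inv_mul_eq_iff_eq_mul] at h2
    rw [h2, mul_neg, mul_one]

/-- First generator. -/
noncomputable def MS : SL(2, ℂ) :=
  ⟨!![ze ^ 3, 0; 0, ze ^ 2], by
    rw [Matrix.det_fin_two_of]
    linear_combination ze5⟩

/-- Second generator. -/
noncomputable def MT : SL(2, ℂ) :=
  ⟨!![TA ze, TB ze; TB ze, -TA ze], by
    rw [Matrix.det_fin_two_of]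
    exact detT hze⟩

/-- The permutation of the first generator. -/
def sS : Equiv.Perm (Fin 5) := (finRotate 5)⁻¹

/-- The permutation of the second generator. -/
def sT : Equiv.Perm (Fin 5) := Equiv.swap 1 2 * Equiv.swap 3 4

theorem RS : R MS sS := by
  intro n u
  have e0 : (MS.1 *ᵥ u) 0 = ze ^ 3 * u 0 := by
    simp [MS, Matrix.mulVec, dotProduct, Fin.sum_univ_two]
  have e1 : (MS.1 *ᵥ u) 1 = ze ^ 2 * u 1 := by
    simp [MS, Matrix.mulVec, dotProduct, Fin.sum_univ_two]
  rw [e0, e1]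
  have hz := hze
  fin_cases n
  · have : sS ⟨0, by norm_num⟩ = 4 := by decide
    rw [show ((fun i => i) ⟨0, by norm_num⟩ : Fin 5) = ⟨0, by norm_num⟩ from rfl, this]
    exact tS4 hz _ _
  · have : sS ⟨1, by norm_num⟩ = 0 := by decide
    rw [show ((fun i => i) ⟨1, by norm_num⟩ : Fin 5) = ⟨1, by norm_num⟩ from rfl, this]
    exact tS0 hz _ _
  · have : sS ⟨2, by norm_num⟩ = 1 := by decide
    rw [show ((fun i => i) ⟨2, by norm_num⟩ : Fin 5) = ⟨2, by norm_num⟩ from rfl, this]
    exact tS1 hz _ _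
  · have : sS ⟨3, by norm_num⟩ = 2 := by decide
    rw [show ((fun i => i) ⟨3, by norm_num⟩ : Fin 5) = ⟨3, by norm_num⟩ from rfl, this]
    exact tS2 hz _ _
  · have : sS ⟨4, by norm_num⟩ = 3 := by decide
    rw [show ((fun i => i) ⟨4, by norm_num⟩ : Fin 5) = ⟨4, by norm_num⟩ from rfl, this]
    exact tS3 hz _ _

theorem RT : R MT sT := by
  intro n u
  have e0 : (MT.1 *ᵥ u) 0 = TA ze * u 0 + TB ze * u 1 := by
    simp [MT, Matrix.mulVec, dotProduct, Fin.sum_univ_two]
  have e1 : (MT.1 *ᵥ u) 1 = TB ze * u 0 - TA ze * u 1 := by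
    simp [MT, Matrix.mulVec, dotProduct, Fin.sum_univ_two]
    ring
  rw [e0, e1]
  have hz := hze
  fin_cases n
  · have : sT ⟨0, by norm_num⟩ = 0 := by decide
    rw [show ((fun i => i) ⟨0, by norm_num⟩ : Fin 5) = ⟨0, by norm_num⟩ from rfl, this]
    exact tT0 hz _ _
  · have : sT ⟨1, by norm_num⟩ = 2 := by decide
    rw [show ((fun i => i) ⟨1, by norm_num⟩ : Fin 5) = ⟨1, by norm_num⟩ from rfl, this]
    exact tT2 hz _ _
  · have : sT ⟨2, by norm_num⟩ = 1 := by decide
    rw [show ((fun i => i) ⟨2, by norm_num⟩ : Fin 5) = ⟨2, by norm_num⟩ from rfl, this]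
    exact tT1 hz _ _
  · have : sT ⟨3, by norm_num⟩ = 4 := by decide
    rw [show ((fun i => i) ⟨3, by norm_num⟩ : Fin 5) = ⟨3, by norm_num⟩ from rfl, this]
    exact tT4 hz _ _
  · have : sT ⟨4, by norm_num⟩ = 3 := by decide
    rw [show ((fun i => i) ⟨4, by norm_num⟩ : Fin 5) = ⟨4, by norm_num⟩ from rfl, this]
    exact tT3 hz _ _

theorem sS_mem : sS ∈ alternatingGroup (Fin 5) := by
  rw [Equiv.Perm.mem_alternatingGroup]
  decide

theorem sT_mem : sT ∈ alternatingGroup (Fin 5) := by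
  rw [Equiv.Perm.mem_alternatingGroup]
  decide

theorem closure_eq_top :
    Subgroup.closure ({⟨sS, sS_mem⟩, ⟨sT, sT_mem⟩} : Set (alternatingGroup (Fin 5))) = ⊤ := by
  set a : alternatingGroup (Fin 5) := ⟨sS, sS_mem⟩ with ha
  set b : alternatingGroup (Fin 5) := ⟨sT, sT_mem⟩ with hb
  set K := Subgroup.closure ({a, b} : Set (alternatingGroup (Fin 5))) with hK
  have haK : a ∈ K := Subgroup.subset_closure (by simp)
  have hbK : b ∈ K := Subgroup.subset_closure (by simp)
  have habK : a * b ∈ K := mul_mem haK hbK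
  have h5 : orderOf a = 5 := by
    haveI : Fact (Nat.Prime 5) := ⟨by norm_num⟩
    apply orderOf_eq_prime
    · apply Subtype.ext
      decide
    · intro h
      have := congrArg Subtype.val h
      revert this
      decide
  have h2 : orderOf b = 2 := by
    apply orderOf_eq_prime
    · apply Subtype.ext
      decide
    · intro h
      have := congrArg Subtype.val h
      revert this
      decide
  have h3 : orderOf (a * b) = 3 := by
    haveI : Fact (Nat.Prime 3) := ⟨by norm_num⟩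
    apply orderOf_eq_prime
    · apply Subtype.ext
      decide
    · intro h
      have := congrArg Subtype.val h
      revert this
      decide
  have d5 : 5 ∣ Nat.card K := by
    have := Subgroup.orderOf_dvd_natCard K haK
    rwa [h5] at this
  have d2 : 2 ∣ Nat.card K := by
    have := Subgroup.orderOf_dvd_natCard K hbK
    rwa [h2] at this
  have d3 : 3 ∣ Nat.card K := by
    have := Subgroup.orderOf_dvd_natCard K habK
    rwa [h3] at this
  have d30 : 30 ∣ Nat.card K := by omega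
  have hcard : Nat.card (alternatingGroup (Fin 5)) = 60 := by
    rw [nat_card_alternatingGroup]
    simp [Nat.factorial]
  have hmul := K.card_mul_index
  rw [hcard] at hmul
  have hidx : K.index = 1 ∨ K.index = 2 := by
    obtain ⟨m, hm⟩ := d30
    rw [hm] at hmul
    have h1 : m * K.index = 2 := by nlinarith
    have h2 : K.index ∣ 2 := ⟨m, by rw [← h1]; ring⟩
    rcases (Nat.dvd_prime Nat.prime_two).mp h2 with h | h
    · left; exact h
    · right; exact h
  rcases hidx with h | h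
  · exact Subgroup.index_eq_one.mp h
  · have hn : K.Normal := Subgroup.normal_of_index_eq_two h
    rcases hn.eq_bot_or_eq_top with h' | h'
    · exfalso
      rw [h'] at haK
      rw [Subgroup.mem_bot] at haK
      rw [haK] at h5
      simp at h5
    · exact h'

theorem R_exists (g : alternatingGroup (Fin 5)) : ∃ M : SL(2, ℂ), R M g.1 := by
  let K : Subgroup (alternatingGroup (Fin 5)) :=
    { carrier := {g | ∃ M : SL(2, ℂ), R M g.1}
      mul_mem' := by
        rintro g h ⟨M, hM⟩ ⟨N, hN⟩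
        exact ⟨M * N, R_mul hM hN⟩
      one_mem' := ⟨1, R_one⟩
      inv_mem' := by
        rintro g ⟨M, hM⟩
        exact ⟨M⁻¹, R_inv hM⟩ }
  have hle : Subgroup.closure ({⟨sS, sS_mem⟩, ⟨sT, sT_mem⟩} : Set (alternatingGroup (Fin 5))) ≤ K := by
    rw [Subgroup.closure_le]
    intro x hx
    rcases hx with rfl | hx
    · exact ⟨MS, RS⟩
    · rw [Set.mem_singleton_iff] at hx
      subst hx
      exact ⟨MT, RT⟩
  rw [closure_eq_top] at hle
  exact hle (Subgroup.mem_top g)

end Pool.Agent.Lib.MP_1d3ef4_gt
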