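import Mathlib
import Pool.Agent.Lib.MP_1d3ef4_gt.Group

/-!
The elliptic surface `Y ^ 2 Z = X ^ 3 + f(s, t) Z ^ 3`.
-/

namespace Pool.Agent.Lib.MP_1d3ef4_gt

open Matrix MvPolynomial
open scoped MatrixGroups LinearAlgebra.Projectivization

/-- The polynomial `Y ^ 2 Z - X ^ 3 - f(s, t) Z ^ 3`, with `f = s t (s ^ 10 + 11 s ^ 5 t ^ 5 - t ^ 10)`.
The variables `s, t` have the indices `inl 0, inl 1`, and `X, Y, Z` the indices
`inr 0, inr 1, inr 2`. -/
noncomputable def eqn : MvPolynomial (Fin 2 ⊕ Fin 3) ℂ :=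
  X (Sum.inr 1) ^ 2 * X (Sum.inr 2) - X (Sum.inr 0) ^ 3
    - X (Sum.inl 0) * X (Sum.inl 1) * (X (Sum.inl 0) ^ 10
        + C 11 * X (Sum.inl 0) ^ 5 * X (Sum.inl 1) ^ 5 - X (Sum.inl 1) ^ 10) * X (Sum.inr 2) ^ 3

/-- The solutions `u = (s, t) ≠ 0`, `v = (X, Y, Z) ≠ 0` of the equation. -/
structure Cone where
  /-- the pair `(s, t)` -/
  u : Fin 2 → ℂ
  /-- the triple `(X, Y, Z)` -/
  v : Fin 3 → ℂ
  hu : u ≠ 0
  hv : v ≠ 0
  h : eval (Sum.elim u v) eqn = 0

noncomputable instance : TopologicalSpace Cone :=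
  TopologicalSpace.induced (fun c : Cone => (c.u, c.v)) inferInstance

/-- `(u, v)` and `(l u, (m l ^ 4 X, m l ^ 6 Y, m Z))` are the same point, `l, m ≠ 0`. -/
def Cone.Rel (a b : Cone) : Prop :=
  ∃ l m : ℂ, l ≠ 0 ∧ m ≠ 0 ∧ b.u = l • a.u ∧
    b.v = ![m * l ^ 4 * a.v 0, m * l ^ 6 * a.v 1, m * a.v 2]

theorem Cone.ext' {a b : Cone} (h1 : a.u = b.u) (h2 : a.v = b.v) : a = b := by
  cases a
  cases b
  simp only at h1 h2
  subst h1
  subst h2
  rfl

theorem Cone.rel_refl (a : Cone) : Cone.Rel a a := by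
  refine ⟨1, 1, one_ne_zero, one_ne_zero, by simp, ?_⟩
  ext i
  fin_cases i <;> simp

theorem Cone.rel_symm {a b : Cone} (h : Cone.Rel a b) : Cone.Rel b a := by
  obtain ⟨l, m, hl, hm, h1, h2⟩ := h
  refine ⟨l⁻¹, m⁻¹, inv_ne_zero hl, inv_ne_zero hm, ?_, ?_⟩
  · rw [h1, smul_smul, inv_mul_cancel₀ hl, one_smul]
  · rw [h2]
    ext i
    fin_cases i
    · simp
      field_simp
    · simp
      field_simp
    · simp
      field_simp

theorem Cone.rel_trans {a b c : Cone} (h : Cone.Rel a b) (h' : Cone.Rel b c) : Cone.Rel a c := by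
  obtain ⟨l, m, hl, hm, h1, h2⟩ := h
  obtain ⟨l', m', hl', hm', h1', h2'⟩ := h'
  refine ⟨l' * l, m' * m, mul_ne_zero hl' hl, mul_ne_zero hm' hm, ?_, ?_⟩
  · rw [h1', h1, smul_smul]
  · rw [h2', h2]
    ext i
    fin_cases i
    · simp
      ring
    · simp
      ring
    · simp
      ring

instance coneSetoid : Setoid Cone where
  r := Cone.Rel
  iseqv := ⟨Cone.rel_refl, Cone.rel_symm, Cone.rel_trans⟩

/-- The surface. -/
def W : Type := Quotient coneSetoid

instance : TopologicalSpace W := inferInstanceAs (TopologicalSpace (Quotient coneSetoid))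

/-- The point of the surface with given coordinates. -/
def pt (c : Cone) : W := Quotient.mk coneSetoid c

/-- The projection `(s, t; X, Y, Z) ↦ (s : t)` to the projective line. -/
noncomputable def base : W → ℙ ℂ (Fin 2 → ℂ) :=
  Quotient.lift (fun c : Cone => Projectivization.mk ℂ c.u c.hu) (by
    intro a b h
    obtain ⟨l, m, hl, hm, h1, h2⟩ := h
    rw [Projectivization.mk_eq_mk_iff']
    refine ⟨l⁻¹, ?_⟩
    rw [h1, smul_smul, inv_mul_cancel₀ hl, one_smul])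

theorem base_pt (c : Cone) : base (pt c) = Projectivization.mk ℂ c.u c.hu := rfl

theorem pt_eq {a b : Cone} : pt a = pt b ↔ Cone.Rel a b := Quotient.eq

/-- The value of the equation. -/
theorem eval_eqn (u : Fin 2 → ℂ) (v : Fin 3 → ℂ) :
    eval (Sum.elim u v) eqn = v 1 ^ 2 * v 2 - v 0 ^ 3 - fm (u 0) (u 1) * v 2 ^ 3 := by
  simp [eqn, fm]

theorem d0 (u : Fin 2 → ℂ) (v : Fin 3 → ℂ) :
    eval (Sum.elim u v) (pderiv (Sum.inr 0) eqn) = -3 * v 0 ^ 2 := by
  simp [eqn, pderiv_X, Derivation.leibniz, Derivation.leibniz_pow]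

theorem d1 (u : Fin 2 → ℂ) (v : Fin 3 → ℂ) :
    eval (Sum.elim u v) (pderiv (Sum.inr 1) eqn) = 2 * v 1 * v 2 := by
  simp [eqn, pderiv_X, Derivation.leibniz, Derivation.leibniz_pow]
  ring

theorem d2 (u : Fin 2 → ℂ) (v : Fin 3 → ℂ) :
    eval (Sum.elim u v) (pderiv (Sum.inr 2) eqn) = v 1 ^ 2 - 3 * fm (u 0) (u 1) * v 2 ^ 2 := by
  simp [eqn, fm, pderiv_X, Derivation.leibniz, Derivation.leibniz_pow]
  ring

theorem ds (u : Fin 2 → ℂ) (v : Fin 3 → ℂ) :
    eval (Sum.elim u v) (pderiv (Sum.inl 0) eqn)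
      = -(u 1 * (11 * u 0 ^ 10 + 66 * u 0 ^ 5 * u 1 ^ 5 - u 1 ^ 10)) * v 2 ^ 3 := by
  simp [eqn, fm, pderiv_X, Derivation.leibniz, Derivation.leibniz_pow]
  ring

theorem dtt (u : Fin 2 → ℂ) (v : Fin 3 → ℂ) :
    eval (Sum.elim u v) (pderiv (Sum.inl 1) eqn)
      = -(u 0 * (u 0 ^ 10 + 66 * u 0 ^ 5 * u 1 ^ 5 - 11 * u 1 ^ 10)) * v 2 ^ 3 := by
  simp [eqn, fm, pderiv_X, Derivation.leibniz, Derivation.leibniz_pow]
  ring


/-! ### Topology -/

theorem continuous_uv : Continuous (fun c : Cone => (c.u, c.v)) := continuous_induced_dom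

theorem continuous_u : Continuous (fun c : Cone => c.u) := continuous_uv.fst

theorem continuous_v : Continuous (fun c : Cone => c.v) := continuous_uv.snd

theorem continuous_cone {α : Type*} [TopologicalSpace α] {f : α → Cone}
    (h1 : Continuous fun a => (f a).u) (h2 : Continuous fun a => (f a).v) : Continuous f :=
  continuous_induced_rng.mpr (h1.prodMk h2)

/-- Rescaling. -/
noncomputable def scale (l m : ℂ) (hl : l ≠ 0) (hm : m ≠ 0) (c : Cone) : Cone where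
  u := l • c.u
  v := ![m * l ^ 4 * c.v 0, m * l ^ 6 * c.v 1, m * c.v 2]
  hu := smul_ne_zero hl c.hu
  hv := by
    intro h
    apply c.hv
    have h0 := congrFun h 0
    have h1 := congrFun h 1
    have h2 := congrFun h 2
    simp [hl, hm] at h0 h1 h2
    ext i
    fin_cases i
    · exact h0
    · exact h1
    · exact h2
  h := by
    have := c.h
    rw [eval_eqn] at this ⊢
    simp only [Matrix.cons_val_one, Matrix.cons_val_zero, Matrix.cons_val, Pi.smul_apply,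
      smul_eq_mul]
    have e : fm (l * c.u 0) (l * c.u 1) = l ^ 12 * fm (c.u 0) (c.u 1) := by
      unfold fm
      ring
    rw [e]
    linear_combination (m ^ 3 * l ^ 12) * this

theorem rel_scale (l m : ℂ) (hl : l ≠ 0) (hm : m ≠ 0) (c : Cone) :
    Cone.Rel c (scale l m hl hm c) := ⟨l, m, hl, hm, rfl, rfl⟩

theorem rel_iff_scale {a b : Cone} :
    Cone.Rel a b ↔ ∃ (l m : ℂ) (hl : l ≠ 0) (hm : m ≠ 0), b = scale l m hl hm a := by
  constructor
  · rintro ⟨l, m, hl, hm, h1, h2⟩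
    exact ⟨l, m, hl, hm, Cone.ext' h1 h2⟩
  · rintro ⟨l, m, hl, hm, rfl⟩
    exact rel_scale l m hl hm a

theorem continuous_scale (l m : ℂ) (hl : l ≠ 0) (hm : m ≠ 0) :
    Continuous (scale l m hl hm) := by
  refine continuous_cone ?_ ?_
  · exact continuous_u.const_smul l
  · refine continuous_pi fun i => ?_
    fin_cases i
    · exact ((continuous_apply 0).comp continuous_v).const_mul (m * l ^ 4)
    · exact ((continuous_apply 1).comp continuous_v).const_mul (m * l ^ 6)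
    · exact ((continuous_apply 2).comp continuous_v).const_mul m

theorem continuous_pt : Continuous pt := continuous_quotient_mk'

theorem isOpenQuotientMap_pt : IsOpenQuotientMap pt := by
  refine ⟨Quotient.exists_rep, continuous_pt, ?_⟩
  intro U hU
  have : IsOpen (pt ⁻¹' (pt '' U)) := by
    have e : pt ⁻¹' (pt '' U) = ⋃ (l : ℂ), ⋃ (m : ℂ), ⋃ (hl : l ≠ 0), ⋃ (hm : m ≠ 0),
        (scale l m hl hm) ⁻¹' U := by
      ext c
      simp only [Set.mem_preimage, Set.mem_image, Set.mem_iUnion]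
      constructor
      · rintro ⟨d, hd, h⟩
        obtain ⟨l, m, hl, hm, h'⟩ := rel_iff_scale.mp (pt_eq.mp h.symm)
        exact ⟨l, m, hl, hm, h' ▸ hd⟩
      · rintro ⟨l, m, hl, hm, h⟩
        exact ⟨_, h, (pt_eq.mpr (rel_scale l m hl hm c)).symm⟩
    rw [e]
    exact isOpen_iUnion fun l => isOpen_iUnion fun m => isOpen_iUnion fun hl =>
      isOpen_iUnion fun hm => hU.preimage (continuous_scale l m hl hm)
  exact this

/-- The surface is compact. -/
theorem compact_W : CompactSpace W := by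
  set K : Set Cone := {c | ‖c.u‖ = 1 ∧ ‖c.v‖ = 1} with hK
  have hKc : IsCompact K := by
    have hind : Topology.IsInducing (fun c : Cone => (c.u, c.v)) := ⟨rfl⟩
    rw [hind.isCompact_iff]
    have e : (fun c : Cone => (c.u, c.v)) '' K
        = {p : (Fin 2 → ℂ) × (Fin 3 → ℂ) | ‖p.1‖ = 1 ∧ ‖p.2‖ = 1 ∧
            p.2 1 ^ 2 * p.2 2 - p.2 0 ^ 3 - fm (p.1 0) (p.1 1) * p.2 2 ^ 3 = 0} := by
      ext p
      constructor
      · rintro ⟨c, ⟨h1, h2⟩, rfl⟩
        have := c.h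
        rw [eval_eqn] at this
        exact ⟨h1, h2, this⟩
      · rintro ⟨h1, h2, h3⟩
        refine ⟨⟨p.1, p.2, ?_, ?_, ?_⟩, ⟨h1, h2⟩, rfl⟩
        · intro h
          rw [h, norm_zero] at h1
          exact zero_ne_one h1
        · intro h
          rw [h, norm_zero] at h2
          exact zero_ne_one h2
        · rw [eval_eqn]
          exact h3
    rw [e]
    have hc : IsClosed {p : (Fin 2 → ℂ) × (Fin 3 → ℂ) | ‖p.1‖ = 1 ∧ ‖p.2‖ = 1 ∧
            p.2 1 ^ 2 * p.2 2 - p.2 0 ^ 3 - fm (p.1 0) (p.1 1) * p.2 2 ^ 3 = 0} := by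
      refine IsClosed.inter (isClosed_eq (by fun_prop) continuous_const)
        (IsClosed.inter (isClosed_eq (by fun_prop) continuous_const)
          (isClosed_eq ?_ continuous_const))
      unfold fm
      fun_prop
    refine Metric.isCompact_of_isClosed_isBounded hc ?_
    refine (Metric.isBounded_closedBall (x := (0 : (Fin 2 → ℂ) × (Fin 3 → ℂ)))
      (r := 1)).subset ?_
    rintro p ⟨h1, h2, -⟩
    rw [mem_closedBall_zero_iff, Prod.norm_def, h1, h2, max_self]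
  have himg : pt '' K = Set.univ := by
    rw [Set.eq_univ_iff_forall]
    intro w
    obtain ⟨c, rfl⟩ := Quotient.exists_rep w
    have hu : ‖c.u‖ ≠ 0 := norm_ne_zero_iff.mpr c.hu
    have hl : ((‖c.u‖⁻¹ : ℝ) : ℂ) ≠ 0 := by
      simp [c.hu]
    set d := scale ((‖c.u‖⁻¹ : ℝ) : ℂ) 1 hl one_ne_zero c with hd
    have hdv : ‖d.v‖ ≠ 0 := norm_ne_zero_iff.mpr d.hv
    have hm : ((‖d.v‖⁻¹ : ℝ) : ℂ) ≠ 0 := by
      simp [d.hv]
    refine ⟨scale 1 ((‖d.v‖⁻¹ : ℝ) : ℂ) one_ne_zero hm d, ⟨?_, ?_⟩, ?_⟩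
    · change ‖(1 : ℂ) • d.u‖ = 1
      rw [one_smul]
      change ‖((‖c.u‖⁻¹ : ℝ) : ℂ) • c.u‖ = 1
      rw [norm_smul, Complex.norm_real, norm_inv, norm_norm, inv_mul_cancel₀ hu]
    · have e : (scale 1 ((‖d.v‖⁻¹ : ℝ) : ℂ) one_ne_zero hm d).v
          = ((‖d.v‖⁻¹ : ℝ) : ℂ) • d.v := by
        ext i
        fin_cases i <;> simp [scale]
      rw [e, norm_smul, Complex.norm_real, norm_inv, norm_norm, inv_mul_cancel₀ hdv]
    · refine (pt_eq.mpr ?_).symm
      exact Cone.rel_trans (rel_scale _ _ hl one_ne_zero c) (rel_scale _ _ one_ne_zero hm d)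
  exact ⟨himg ▸ hKc.image continuous_pt⟩

end Pool.Agent.Lib.MP_1d3ef4_gt
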