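import Mathlib
import Pool.Agent.Lib.MP_1d3ef4_gt.Surface

/-!
The surface is Hausdorff, and the action of the alternating group.
-/

namespace Pool.Agent.Lib.MP_1d3ef4_gt

open Matrix MvPolynomial
open scoped MatrixGroups LinearAlgebra.Projectivization

theorem parallel {n : ℕ} {p q : Fin n → ℂ} (hp : p ≠ 0) (hq : q ≠ 0)
    (h : ∀ i j, p i * q j = p j * q i) : ∃ c : ℂ, c ≠ 0 ∧ q = c • p := by
  obtain ⟨i, hi⟩ := Function.ne_iff.mp hp
  simp only [Pi.zero_apply] at hi
  have e : q = (q i / p i) • p := by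
    ext j
    rw [Pi.smul_apply, smul_eq_mul, div_mul_eq_mul_div, eq_div_iff hi]
    linear_combination h i j
  refine ⟨q i / p i, ?_, e⟩
  intro h0
  apply hq
  rw [e, h0, zero_smul]

/-- The ratio of two pairs. -/
noncomputable def lam (x : Cone × Cone) : ℂ :=
  (star (x.1.u 0) * x.2.u 0 + star (x.1.u 1) * x.2.u 1) /
    (star (x.1.u 0) * x.1.u 0 + star (x.1.u 1) * x.1.u 1)

theorem den_ne (c : Cone) : star (c.u 0) * c.u 0 + star (c.u 1) * c.u 1 ≠ 0 := by
  have e : star (c.u 0) * c.u 0 + star (c.u 1) * c.u 1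
      = ((Complex.normSq (c.u 0) + Complex.normSq (c.u 1) : ℝ) : ℂ) := by
    rw [Complex.ofReal_add, Complex.normSq_eq_conj_mul_self, Complex.normSq_eq_conj_mul_self]
    rfl
  rw [e]
  intro h
  have h' : Complex.normSq (c.u 0) + Complex.normSq (c.u 1) = 0 := by
    exact_mod_cast h
  have h0 : Complex.normSq (c.u 0) = 0 := by
    linarith [Complex.normSq_nonneg (c.u 0), Complex.normSq_nonneg (c.u 1)]
  have h1 : Complex.normSq (c.u 1) = 0 := by
    linarith [Complex.normSq_nonneg (c.u 0), Complex.normSq_nonneg (c.u 1)]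
  apply c.hu
  ext i
  fin_cases i
  · exact Complex.normSq_eq_zero.mp h0
  · exact Complex.normSq_eq_zero.mp h1

theorem lam_eq {x : Cone × Cone} {c : ℂ} (h : x.2.u = c • x.1.u) : lam x = c := by
  unfold lam
  rw [div_eq_iff (den_ne x.1), h]
  simp only [Pi.smul_apply, smul_eq_mul]
  ring

theorem continuous_lam : Continuous lam := by
  unfold lam
  have h0 : ∀ i : Fin 2, Continuous fun x : Cone × Cone => x.1.u i := fun i =>
    (continuous_apply i).comp (continuous_u.comp continuous_fst)
  have h1 : ∀ i : Fin 2, Continuous fun x : Cone × Cone => x.2.u i := fun i =>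
    (continuous_apply i).comp (continuous_u.comp continuous_snd)
  refine Continuous.div ?_ ?_ fun x => den_ne x.1
  · exact ((continuous_star.comp (h0 0)).mul (h1 0)).add ((continuous_star.comp (h0 1)).mul (h1 1))
  · exact ((continuous_star.comp (h0 0)).mul (h0 0)).add ((continuous_star.comp (h0 1)).mul (h0 1))

/-- The rescaled triple. -/
noncomputable def ww (x : Cone × Cone) : Fin 3 → ℂ :=
  ![lam x ^ 4 * x.1.v 0, lam x ^ 6 * x.1.v 1, x.1.v 2]

theorem continuous_ww : Continuous ww := by
  have h0 : ∀ i : Fin 3, Continuous fun x : Cone × Cone => x.1.v i := fun i =>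
    (continuous_apply i).comp (continuous_v.comp continuous_fst)
  refine continuous_pi fun i => ?_
  fin_cases i
  · exact (continuous_lam.pow 4).mul (h0 0)
  · exact (continuous_lam.pow 6).mul (h0 1)
  · exact h0 2

theorem rel_iff_closed (x : Cone × Cone) :
    Cone.Rel x.1 x.2 ↔ (∀ i j, x.1.u i * x.2.u j = x.1.u j * x.2.u i) ∧
      ∀ i j, ww x i * x.2.v j = ww x j * x.2.v i := by
  constructor
  · rintro ⟨l, m, hl, hm, h1, h2⟩
    have hlam : lam x = l := lam_eq h1
    have e : x.2.v = m • ww x := by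
      rw [h2]
      unfold ww
      rw [hlam]
      ext i
      fin_cases i
      · simp
        ring
      · simp
        ring
      · simp
    refine ⟨?_, ?_⟩
    · intro i j
      rw [h1]
      simp only [Pi.smul_apply, smul_eq_mul]
      ring
    · intro i j
      rw [e]
      simp only [Pi.smul_apply, smul_eq_mul]
      ring
  · rintro ⟨h1, h2⟩
    obtain ⟨l, hl, hl'⟩ := parallel x.1.hu x.2.hu h1
    have hlam : lam x = l := lam_eq hl'
    have hw : ww x ≠ 0 := by
      intro h
      apply x.1.hv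
      have h0 := congrFun h 0
      have h1 := congrFun h 1
      have h2 := congrFun h 2
      simp [ww, hlam, hl] at h0 h1 h2
      ext i
      fin_cases i
      · exact h0
      · exact h1
      · exact h2
    obtain ⟨m, hm, hm'⟩ := parallel hw x.2.hv h2
    refine ⟨l, m, hl, hm, hl', ?_⟩
    rw [hm']
    unfold ww
    rw [hlam]
    ext i
    fin_cases i
    · simp
      ring
    · simp
      ring
    · simp

/-- The surface is a Hausdorff space. -/
theorem t2_W : T2Space W := by
  rw [t2Space_iff_of_isOpenQuotientMap isOpenQuotientMap_pt]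
  have e : {q : Cone × Cone | pt q.1 = pt q.2} = {x | (∀ i j, x.1.u i * x.2.u j = x.1.u j * x.2.u i) ∧
      ∀ i j, ww x i * x.2.v j = ww x j * x.2.v i} := by
    ext x
    rw [Set.mem_ofPred_eq, Set.mem_ofPred_eq, pt_eq, rel_iff_closed]
  rw [e]
  have h0 : ∀ i : Fin 2, Continuous fun x : Cone × Cone => x.1.u i := fun i =>
    (continuous_apply i).comp (continuous_u.comp continuous_fst)
  have h1 : ∀ i : Fin 2, Continuous fun x : Cone × Cone => x.2.u i := fun i =>
    (continuous_apply i).comp (continuous_u.comp continuous_snd)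
  have h2 : ∀ i : Fin 3, Continuous fun x : Cone × Cone => x.2.v i := fun i =>
    (continuous_apply i).comp (continuous_v.comp continuous_snd)
  have h3 : ∀ i : Fin 3, Continuous fun x : Cone × Cone => ww x i := fun i =>
    (continuous_apply i).comp continuous_ww
  have e1 : {x : Cone × Cone | (∀ i j, x.1.u i * x.2.u j = x.1.u j * x.2.u i) ∧
      ∀ i j, ww x i * x.2.v j = ww x j * x.2.v i}
      = (⋂ i, ⋂ j, {x : Cone × Cone | x.1.u i * x.2.u j = x.1.u j * x.2.u i}) ∩
        ⋂ i, ⋂ j, {x : Cone × Cone | ww x i * x.2.v j = ww x j * x.2.v i} := by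
    ext x
    simp only [Set.mem_inter_iff, Set.mem_iInter, Set.mem_ofPred_eq]
  rw [e1]
  refine IsClosed.inter ?_ ?_
  · exact isClosed_iInter fun i => isClosed_iInter fun j =>
      isClosed_eq ((h0 i).mul (h1 j)) ((h0 j).mul (h1 i))
  · exact isClosed_iInter fun i => isClosed_iInter fun j =>
      isClosed_eq ((h3 i).mul (h2 j)) ((h3 j).mul (h2 i))

/-- The matrix preserves the form. -/
def Pres (M : SL(2, ℂ)) : Prop :=
  ∀ u : Fin 2 → ℂ, fm ((M.1 *ᵥ u) 0) ((M.1 *ᵥ u) 1) = fm (u 0) (u 1)

/-- The transformation `(u, v) ↦ (M u, v)`. -/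
noncomputable def act (M : SL(2, ℂ)) (hM : Pres M) (c : Cone) :
    Cone where
  u := M.1 *ᵥ c.u
  v := c.v
  hu := by
    intro h
    apply c.hu
    have e : (M⁻¹ : SL(2, ℂ)).1 *ᵥ (M.1 *ᵥ c.u) = c.u := by
      rw [Matrix.mulVec_mulVec]
      have : (M⁻¹ : SL(2, ℂ)).1 * M.1 = 1 := congrArg Subtype.val (inv_mul_cancel M)
      rw [this, Matrix.one_mulVec]
    rw [← e, h, Matrix.mulVec_zero]
  hv := c.hv
  h := by
    have := c.h
    rw [eval_eqn] at this ⊢
    rw [hM]
    exact this

theorem continuous_act (M : SL(2, ℂ)) (hM : Pres M) : Continuous (act M hM) := by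
  refine continuous_cone ?_ continuous_v
  exact Continuous.matrix_mulVec continuous_const continuous_u

theorem act_rel (M : SL(2, ℂ)) (hM : Pres M) {a b : Cone} (h : Cone.Rel a b) :
    Cone.Rel (act M hM a) (act M hM b) := by
  obtain ⟨l, m, hl, hm, h1, h2⟩ := h
  refine ⟨l, m, hl, hm, ?_, h2⟩
  change M.1 *ᵥ b.u = l • (M.1 *ᵥ a.u)
  rw [h1, Matrix.mulVec_smul]

/-- The induced transformation of the surface. -/
noncomputable def actW (M : SL(2, ℂ)) (hM : Pres M) : W → W :=
  Quotient.map (act M hM) fun _ _ h => act_rel M hM h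

theorem actW_pt (M : SL(2, ℂ)) (hM : Pres M) (c : Cone) : actW M hM (pt c) = pt (act M hM c) := rfl

theorem continuous_actW (M : SL(2, ℂ)) (hM : Pres M) : Continuous (actW M hM) :=
  continuous_quot_lift _ (continuous_pt.comp (continuous_act M hM))

theorem actW_mul (M N : SL(2, ℂ)) (hM : Pres M) (hN : Pres N) (hMN : Pres (M * N)) (w : W) :
    actW (M * N) hMN w = actW M hM (actW N hN w) := by
  obtain ⟨c, rfl⟩ := Quotient.exists_rep w
  change pt _ = pt _
  congr 1
  refine Cone.ext' ?_ rfl
  change ((M * N : SL(2, ℂ)) : Matrix (Fin 2) (Fin 2) ℂ) *ᵥ c.u = M.1 *ᵥ (N.1 *ᵥ c.u)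
  rw [Matrix.mulVec_mulVec]
  rfl

theorem actW_one (h1 : Pres 1) (w : W) : actW 1 h1 w = w := by
  obtain ⟨c, rfl⟩ := Quotient.exists_rep w
  change pt _ = pt _
  congr 1
  refine Cone.ext' ?_ rfl
  change ((1 : SL(2, ℂ)) : Matrix (Fin 2) (Fin 2) ℂ) *ᵥ c.u = c.u
  rw [Matrix.SpecialLinearGroup.coe_one, Matrix.one_mulVec]

theorem actW_neg (M : SL(2, ℂ)) (hM : Pres M) (hM' : Pres (-M)) (w : W) : actW (-M) hM' w = actW M hM w := by
  obtain ⟨c, rfl⟩ := Quotient.exists_rep w
  refine (pt_eq.mpr ?_)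
  refine ⟨-1, 1, by norm_num, one_ne_zero, ?_, ?_⟩
  · change M.1 *ᵥ c.u = (-1 : ℂ) • (((-M : SL(2, ℂ)) : Matrix (Fin 2) (Fin 2) ℂ) *ᵥ c.u)
    rw [Matrix.SpecialLinearGroup.coe_neg, Matrix.neg_mulVec]
    simp
  · change c.v = ![1 * (-1) ^ 4 * c.v 0, 1 * (-1) ^ 6 * c.v 1, 1 * c.v 2]
    ext i
    fin_cases i <;> simp <;> norm_num

/-- Pairs of a matrix and the even permutation of the sextics which it induces. -/
noncomputable def PP : Subgroup (SL(2, ℂ) × alternatingGroup (Fin 5)) where
  carrier := {x | R x.1 x.2.1}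
  mul_mem' := fun h h' => R_mul h h'
  one_mem' := R_one
  inv_mem' := fun h => R_inv h

theorem PP_form (x : PP) : Pres x.1.1 := fun u => R_form x.2 u

/-- The homomorphism to the homeomorphisms of the surface. -/
noncomputable def homW : PP →* (W ≃ₜ W) where
  toFun x :=
    { toFun := actW x.1.1 (PP_form x)
      invFun := actW x⁻¹.1.1 (PP_form x⁻¹)
      left_inv := fun w => by
        rw [← actW_mul x⁻¹.1.1 x.1.1 _ _ (PP_form (x⁻¹ * x))]
        have e : (x⁻¹ * x) = 1 := inv_mul_cancel x
        have : ∀ (y : PP) (_ : y = 1) (hy), actW y.1.1 hy w = w := by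
          rintro y rfl hy
          exact actW_one _ w
        exact this (x⁻¹ * x) e _
      right_inv := fun w => by
        rw [← actW_mul x.1.1 x⁻¹.1.1 _ _ (PP_form (x * x⁻¹))]
        have e : (x * x⁻¹) = 1 := mul_inv_cancel x
        have : ∀ (y : PP) (_ : y = 1) (hy), actW y.1.1 hy w = w := by
          rintro y rfl hy
          exact actW_one _ w
        exact this (x * x⁻¹) e _
      continuous_toFun := continuous_actW _ _
      continuous_invFun := continuous_actW _ _ }
  map_one' := by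
    ext w
    exact actW_one _ w
  map_mul' x y := by
    ext w
    exact actW_mul _ _ _ _ _ w

/-- The homomorphism to the projective group. -/
noncomputable def homP : PP →* Matrix.ProjectiveSpecialLinearGroup (Fin 2) ℂ :=
  (QuotientGroup.mk' _).comp ((MonoidHom.fst _ _).comp PP.subtype)

/-- The homomorphism to the alternating group. -/
noncomputable def homA : PP →* alternatingGroup (Fin 5) :=
  (MonoidHom.snd _ _).comp PP.subtype

theorem homA_surj : Function.Surjective homA := by
  intro g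
  obtain ⟨M, hM⟩ := R_exists g
  exact ⟨⟨(M, g), hM⟩, rfl⟩

theorem homA_ker {x : PP} (h : homA x = 1) : x.1.1 = 1 ∨ x.1.1 = -1 := by
  have h1 : x.1.2 = 1 := h
  have := x.2
  change R x.1.1 x.1.2.1 at this
  rw [h1] at this
  exact R_ker this

theorem neg_one_mem_center : (-1 : SL(2, ℂ)) ∈ Subgroup.center (SL(2, ℂ)) := by
  rw [Subgroup.mem_center_iff]
  intro g
  rw [mul_neg, mul_one, neg_mul, one_mul]

theorem ker_le_W : homA.ker ≤ homW.ker := by
  intro x hx
  rw [MonoidHom.mem_ker] at hx ⊢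
  ext w
  change actW x.1.1 (PP_form x) w = w
  have hf := PP_form x
  rcases homA_ker hx with h | h
  · have : ∀ (M : SL(2, ℂ)) (_ : M = 1) (hy), actW M hy w = w := by
      rintro M rfl hy
      exact actW_one _ w
    exact this _ h _
  · have : ∀ (M : SL(2, ℂ)) (_ : M = -1) (hy), actW M hy w = w := by
      rintro M rfl hy
      rw [actW_neg 1 (PP_form 1)]
      exact actW_one _ w
    exact this _ h _

theorem ker_le_P : homA.ker ≤ homP.ker := by
  intro x hx
  rw [MonoidHom.mem_ker] at hx ⊢
  change ((x.1.1 : SL(2, ℂ)) : Matrix.ProjectiveSpecialLinearGroup (Fin 2) ℂ) = 1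
  rw [QuotientGroup.eq_one_iff]
  rcases homA_ker hx with h | h
  · rw [h]
    exact Subgroup.one_mem _
  · rw [h]
    exact neg_one_mem_center

/-- The action on the surface. -/
noncomputable def phi : alternatingGroup (Fin 5) →* (W ≃ₜ W) :=
  homA.liftOfSurjective homA_surj ⟨homW, ker_le_W⟩

/-- The action on the line. -/
noncomputable def rho : alternatingGroup (Fin 5) →* Matrix.ProjectiveSpecialLinearGroup (Fin 2) ℂ :=
  homA.liftOfSurjective homA_surj ⟨homP, ker_le_P⟩

theorem phi_homA (x : PP) : phi (homA x) = homW x :=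
  MonoidHom.liftOfRightInverse_comp_apply _ _ _ _ x

theorem rho_homA (x : PP) : rho (homA x) = homP x :=
  MonoidHom.liftOfRightInverse_comp_apply _ _ _ _ x

end Pool.Agent.Lib.MP_1d3ef4_gt
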