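import Mathlib
import Pool.Agent.Lib.MP_1d3ef4_gt.Action

/-!
Singular points, special fibres and fixed points.
-/

namespace Pool.Agent.Lib.MP_1d3ef4_gt

open Matrix MvPolynomial
open scoped MatrixGroups LinearAlgebra.Projectivization

/-- The two derivatives of the form do not vanish together. -/
theorem form_smooth {s t : ℂ} (h1 : t * (11 * s ^ 10 + 66 * s ^ 5 * t ^ 5 - t ^ 10) = 0)
    (h2 : s * (s ^ 10 + 66 * s ^ 5 * t ^ 5 - 11 * t ^ 10) = 0) : s = 0 ∧ t = 0 := by
  by_cases hs : s = 0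
  · refine ⟨hs, ?_⟩
    rw [hs] at h1
    have h3 : t ^ 11 = 0 := by linear_combination -h1
    exact pow_eq_zero_iff (by norm_num) |>.mp h3
  · exfalso
    by_cases ht : t = 0
    · rw [ht] at h2
      have h3 : s ^ 11 = 0 := by linear_combination h2
      exact hs (pow_eq_zero_iff (by norm_num) |>.mp h3)
    · have e1 := (mul_eq_zero.mp h1).resolve_left ht
      have e2 := (mul_eq_zero.mp h2).resolve_left hs
      have e3 : (s ^ 5) ^ 2 + (t ^ 5) ^ 2 = 0 := by linear_combination (1 / 10) * e1 - (1 / 10) * e2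
      have e4 : s ^ 5 * (2 * s ^ 5 + 11 * t ^ 5) = 0 := by
        linear_combination (1 / 6) * e1 + (1 / 6) * e3
      have e5 := (mul_eq_zero.mp e4).resolve_left (pow_ne_zero 5 hs)
      have e6 : (t ^ 5) ^ 2 = 0 := by
        linear_combination (4 / 125) * e3 - (1 / 125) * (2 * s ^ 5 - 11 * t ^ 5) * e5
      exact ht ((pow_eq_zero_iff (by norm_num)).mp ((pow_eq_zero_iff (by norm_num)).mp e6))

/-- The equation defines a smooth surface. -/
theorem smooth_cone (c : Cone) :
    ∃ i : Fin 2 ⊕ Fin 3, eval (Sum.elim c.u c.v) (pderiv i eqn) ≠ 0 := by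
  by_contra! h
  have h0 := h (Sum.inr 0)
  have h1 := h (Sum.inr 1)
  have h2 := h (Sum.inr 2)
  have h3 := h (Sum.inl 0)
  have h4 := h (Sum.inl 1)
  rw [d0] at h0
  rw [d1] at h1
  rw [d2] at h2
  rw [ds] at h3
  rw [dtt] at h4
  have v0 : c.v 0 = 0 := by
    have : c.v 0 ^ 2 = 0 := by linear_combination (-1 / 3) * h0
    exact (pow_eq_zero_iff (by norm_num)).mp this
  have v2 : c.v 2 ≠ 0 := by
    intro v2
    rw [v2] at h2
    have v1 : c.v 1 ^ 2 = 0 := by linear_combination h2
    apply c.hv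
    ext i
    fin_cases i
    · exact v0
    · exact (pow_eq_zero_iff (by norm_num)).mp v1
    · exact v2
  have v23 := pow_ne_zero 3 v2
  have h3' := neg_eq_zero.mp ((mul_eq_zero.mp h3).resolve_right v23)
  have h4' := neg_eq_zero.mp ((mul_eq_zero.mp h4).resolve_right v23)
  obtain ⟨hs, ht⟩ := form_smooth h3' h4'
  apply c.hu
  ext i
  fin_cases i
  · exact hs
  · exact ht

/-- The points where the form vanishes. -/
def Zs : Set (ℙ ℂ (Fin 2 → ℂ)) := {p | fm (p.rep 0) (p.rep 1) = 0}

theorem fm_smul (l : ℂ) (u : Fin 2 → ℂ) : fm ((l • u) 0) ((l • u) 1) = l ^ 12 * fm (u 0) (u 1) := by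
  simp only [Pi.smul_apply, smul_eq_mul]
  unfold fm
  ring

theorem mem_Zs {u : Fin 2 → ℂ} (hu : u ≠ 0) :
    Projectivization.mk ℂ u hu ∈ Zs ↔ fm (u 0) (u 1) = 0 := by
  obtain ⟨a, ha⟩ := Projectivization.exists_smul_eq_mk_rep ℂ u hu
  have ha' : (Projectivization.mk ℂ u hu).rep = (a : ℂ) • u := ha.symm
  change fm ((Projectivization.mk ℂ u hu).rep 0) ((Projectivization.mk ℂ u hu).rep 1) = 0 ↔ _
  rw [ha', fm_smul, mul_eq_zero]
  constructor
  · rintro (h | h)
    · exact absurd ((pow_eq_zero_iff (by norm_num)).mp h) a.ne_zero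
    · exact h
  · exact fun h => Or.inr h

/-- The singular points of the fibres. -/
theorem fibre_sing (c : Cone) :
    (∀ i : Fin 3, eval (Sum.elim c.u c.v) (pderiv (Sum.inr i) eqn) = 0) ↔
      base (pt c) ∈ Zs ∧ c.v 0 = 0 ∧ c.v 1 = 0 := by
  rw [base_pt, mem_Zs]
  have hc := c.h
  rw [eval_eqn] at hc
  constructor
  · intro h
    have h0 := h 0
    have h1 := h 1
    have h2 := h 2
    rw [d0] at h0
    rw [d1] at h1
    rw [d2] at h2
    have v0 : c.v 0 = 0 := by
      have : c.v 0 ^ 2 = 0 := by linear_combination (-1 / 3) * h0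
      exact (pow_eq_zero_iff (by norm_num)).mp this
    have v2 : c.v 2 ≠ 0 := by
      intro v2
      rw [v2] at h2
      have v1 : c.v 1 ^ 2 = 0 := by linear_combination h2
      apply c.hv
      ext i
      fin_cases i
      · exact v0
      · exact (pow_eq_zero_iff (by norm_num)).mp v1
      · exact v2
    have v1 : c.v 1 = 0 := by
      rcases mul_eq_zero.mp h1 with h | h
      · exact (mul_eq_zero.mp h).resolve_left (by norm_num)
      · exact absurd h v2
    refine ⟨?_, v0, v1⟩
    rw [v0, v1] at hc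
    have : fm (c.u 0) (c.u 1) * c.v 2 ^ 3 = 0 := by linear_combination -hc
    exact (mul_eq_zero.mp this).resolve_right (pow_ne_zero 3 v2)
  · rintro ⟨h, v0, v1⟩ i
    fin_cases i
    · change eval (Sum.elim c.u c.v) (pderiv (Sum.inr 0) eqn) = 0
      rw [d0, v0]
      ring
    · change eval (Sum.elim c.u c.v) (pderiv (Sum.inr 1) eqn) = 0
      rw [d1, v1]
      ring
    · change eval (Sum.elim c.u c.v) (pderiv (Sum.inr 2) eqn) = 0
      rw [d2, v1, h]
      ring

theorem ne_one (x : ℂ) : (![x, 1] : Fin 2 → ℂ) ≠ 0 := by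
  intro h
  have := congrFun h 1
  simp at this

theorem ne_inf : (![1, 0] : Fin 2 → ℂ) ≠ 0 := by
  intro h
  have := congrFun h 0
  simp at this

/-- The finite points of the line. -/
noncomputable def fin (x : ℂ) : ℙ ℂ (Fin 2 → ℂ) := Projectivization.mk ℂ ![x, 1] (ne_one x)

/-- The point at infinity. -/
noncomputable def inf : ℙ ℂ (Fin 2 → ℂ) := Projectivization.mk ℂ ![1, 0] ne_inf

theorem fin_inj : Function.Injective fin := by
  intro x y h
  unfold fin at h
  rw [Projectivization.mk_eq_mk_iff'] at h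
  obtain ⟨a, ha⟩ := h
  have h0 := congrFun ha 0
  have h1 := congrFun ha 1
  simp at h0 h1
  rw [h1] at h0
  rw [← h0, one_mul]

theorem fin_ne_inf (x : ℂ) : fin x ≠ inf := by
  intro h
  unfold fin inf at h
  rw [Projectivization.mk_eq_mk_iff'] at h
  obtain ⟨a, ha⟩ := h
  have h1 := congrFun ha 1
  simp at h1

theorem fin_or_inf (p : ℙ ℂ (Fin 2 → ℂ)) : p = inf ∨ ∃ x, p = fin x := by
  induction p using Projectivization.ind with | _ v hv
  by_cases h : v 1 = 0
  · left
    unfold inf
    rw [Projectivization.mk_eq_mk_iff']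
    refine ⟨v 0, ?_⟩
    ext i
    fin_cases i
    · simp
    · simp [h]
  · right
    refine ⟨v 0 / v 1, ?_⟩
    unfold fin
    rw [Projectivization.mk_eq_mk_iff']
    refine ⟨v 1, ?_⟩
    ext i
    fin_cases i
    · simp [mul_div_cancel₀ _ h]
    · simp

open Polynomial in
theorem finite_roots {P : Polynomial ℂ} (hP : P ≠ 0) {S : Set (ℙ ℂ (Fin 2 → ℂ))}
    (hS : ∀ x, fin x ∈ S → P.eval x = 0) : S.Finite := by
  have h1 : (insert inf (fin '' {x | P.eval x = 0})).Finite := by
    refine Set.Finite.insert _ (Set.Finite.image _ ?_)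
    have e : {x | P.eval x = 0} = {x | P.IsRoot x} := rfl
    rw [e]
    exact Polynomial.finite_setOfPred_isRoot hP
  refine h1.subset ?_
  intro p hp
  rcases fin_or_inf p with h | ⟨x, rfl⟩
  · rw [h]
    exact Set.mem_insert _ _
  · exact Set.mem_insert_of_mem _ ⟨x, hS x hp, rfl⟩

/-- The polynomial `f(x, 1)`. -/
noncomputable def Pf : Polynomial ℂ :=
  Polynomial.X ^ 11 + Polynomial.C 11 * Polynomial.X ^ 6 - Polynomial.X

theorem Pf_eval (x : ℂ) : Pf.eval x = fm x 1 := by
  unfold Pf fm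
  simp
  ring

theorem Pf_deg : Pf.natDegree = 11 := by
  unfold Pf
  compute_degree!

theorem Pf_sep : Pf.Separable := by
  unfold Polynomial.Separable
  refine (Polynomial.isCoprime_iff_aeval_ne_zero_of_isAlgClosed (k := ℂ) ℂ _ _).mpr ?_
  intro a
  by_contra! h
  obtain ⟨h1, h2⟩ := h
  unfold Pf at h1 h2
  simp at h1 h2
  have e1 : a * (a ^ 10 + 11 * a ^ 5 - 1) = 0 := by linear_combination h1
  have e2 : 11 * a ^ 10 + 66 * a ^ 5 - 1 = 0 := by linear_combination h2
  have h3 : (1 : ℂ) * (11 * a ^ 10 + 66 * a ^ 5 * 1 ^ 5 - 1 ^ 10) = 0 := by linear_combination e2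
  have h4 : a * (a ^ 10 + 66 * a ^ 5 * 1 ^ 5 - 11 * 1 ^ 10) = 0 := by
    linear_combination 12 * e1 - a * e2
  exact one_ne_zero (form_smooth h3 h4).2

theorem Zs_eq : Zs = insert inf (fin '' {x | Pf.eval x = 0}) := by
  ext p
  rcases fin_or_inf p with rfl | ⟨x, rfl⟩
  · unfold inf
    rw [mem_Zs]
    constructor
    · intro _
      exact Set.mem_insert _ _
    · intro _
      simp [fm]
  · have e : fin x ∈ Zs ↔ fm x 1 = 0 := by
      unfold fin
      rw [mem_Zs]
      simp
    rw [e, Set.mem_insert_iff]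
    constructor
    · intro h
      right
      refine ⟨x, ?_, rfl⟩
      change Pf.eval x = 0
      rw [Pf_eval, h]
    · rintro (h | ⟨y, hy, h⟩)
      · exact absurd h (fin_ne_inf x)
      · have h' := fin_inj h
        rw [← h', ← Pf_eval]
        exact hy

theorem Pf_ne : Pf ≠ 0 := by
  intro h
  have := Pf_deg
  rw [h] at this
  simp at this

theorem Zs_card : Zs.ncard = 12 := by
  rw [Zs_eq]
  have e : {x | Pf.eval x = 0} = Pf.rootSet ℂ := by
    ext x
    rw [Polynomial.mem_rootSet]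
    simp [Pf_ne]
  have hfin : {x | Pf.eval x = 0}.Finite := by
    rw [e]
    exact Polynomial.rootSet_finite _ _
  rw [Set.ncard_insert_of_notMem _ (hfin.image _), Set.ncard_image_of_injective _ fin_inj, e]
  · rw [← Nat.card_coe_set_eq, Nat.card_eq_fintype_card,
      Polynomial.card_rootSet_eq_natDegree Pf_sep (IsAlgClosed.splits _), Pf_deg]
  · rintro ⟨x, -, h⟩
    exact fin_ne_inf x h

theorem Zs_fin : Zs.Finite := Set.finite_of_ncard_ne_zero (by rw [Zs_card]; norm_num)

/-- The fixed points of a matrix on the line. -/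
theorem fixed_finite {M : SL(2, ℂ)} (h1 : M ≠ 1) (h2 : M ≠ -1) :
    {p : ℙ ℂ (Fin 2 → ℂ) | M • p = p}.Finite := by
  set P : Polynomial ℂ := Polynomial.C (-M.1 1 0) * Polynomial.X ^ 2
    + Polynomial.C (M.1 0 0 - M.1 1 1) * Polynomial.X + Polynomial.C (M.1 0 1) with hP
  have hP0 : P ≠ 0 := by
    intro h
    have c2 : -M.1 1 0 = 0 := by
      have := congrArg (fun Q => Polynomial.coeff Q 2) h
      simpa [hP, Polynomial.coeff_X, Polynomial.coeff_C] using this
    have c1 : M.1 0 0 - M.1 1 1 = 0 := by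
      have := congrArg (fun Q => Polynomial.coeff Q 1) h
      simpa [hP, Polynomial.coeff_X, Polynomial.coeff_C, Polynomial.coeff_X_pow] using this
    have c0 : M.1 0 1 = 0 := by
      have := congrArg (fun Q => Polynomial.coeff Q 0) h
      simpa [hP, Polynomial.coeff_X, Polynomial.coeff_C, Polynomial.coeff_X_pow] using this
    have hdet : M.1 0 0 * M.1 1 1 - M.1 0 1 * M.1 1 0 = 1 := by
      have := M.2
      rw [Matrix.det_fin_two] at this
      exact this
    have hd : M.1 1 1 = M.1 0 0 := by linear_combination -c1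
    have h3 : (M.1 0 0 - 1) * (M.1 0 0 + 1) = 0 := by
      linear_combination hdet + M.1 1 0 * c0 - M.1 0 0 * hd
    have hc : M.1 1 0 = 0 := by linear_combination -c2
    rcases mul_eq_zero.mp h3 with h | h
    · apply h1
      have h4 : M.1 0 0 = 1 := by linear_combination h
      ext i j
      fin_cases i <;> fin_cases j
      · simpa using h4
      · simpa using c0
      · simpa using hc
      · simpa using hd.trans h4
    · apply h2
      have h4 : M.1 0 0 = -1 := by linear_combination h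
      ext i j
      fin_cases i <;> fin_cases j
      · simpa using h4
      · simpa using c0
      · simpa using hc
      · simpa using hd.trans h4
  refine finite_roots hP0 ?_
  intro x hx
  have hx' : M • fin x = fin x := hx
  unfold fin at hx'
  rw [Projectivization.smul_mk, Projectivization.mk_eq_mk_iff'] at hx'
  obtain ⟨a, ha⟩ := hx'
  have ha' : a • (![x, 1] : Fin 2 → ℂ) = M.1 *ᵥ ![x, 1] := ha
  have e0 := congrFun ha' 0
  have e1 := congrFun ha' 1
  simp [Matrix.mulVec, dotProduct, Fin.sum_univ_two] at e0 e1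
  rw [hP]
  simp only [Polynomial.eval_add, Polynomial.eval_mul, Polynomial.eval_C, Polynomial.eval_pow,
    Polynomial.eval_X]
  linear_combination x * e1 - e0

/-- The permutation is determined by the matrix. -/
theorem R_perm {M : SL(2, ℂ)} {σ τ : Equiv.Perm (Fin 5)} (h : R M σ) (h' : R M τ) : σ = τ := by
  ext n
  have e : M.1 *ᵥ ((M⁻¹ : SL(2, ℂ)).1 *ᵥ ![1, 0]) = ![1, 0] := by
    rw [Matrix.mulVec_mulVec]
    have : M.1 * (M⁻¹ : SL(2, ℂ)).1 = 1 := congrArg Subtype.val (mul_inv_cancel M)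
    rw [this, Matrix.one_mulVec]
  have h1 := (h n ((M⁻¹ : SL(2, ℂ)).1 *ᵥ ![1, 0])).trans (h' n ((M⁻¹ : SL(2, ℂ)).1 *ᵥ ![1, 0])).symm
  rw [e] at h1
  simp [t] at h1
  rw [pow_mul, pow_mul] at h1
  exact (ze_prim.pow_of_coprime 3 (by norm_num)).pow_inj (σ n).isLt (τ n).isLt h1

end Pool.Agent.Lib.MP_1d3ef4_gt
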