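import Mathlib
import Pool.Agent.Lib.MP_1d3ef4_gt.Fibres

/-!
The residue two-form of the surface.
-/

namespace Pool.Agent.Lib.MP_1d3ef4_gt

open Matrix MvPolynomial
open scoped MatrixGroups LinearAlgebra.Projectivization

/-- The gradient of the equation. -/
noncomputable def grad (c : Cone) (i : Fin 2 ⊕ Fin 3) : ℂ :=
  eval (Sum.elim c.u c.v) (pderiv i eqn)

/-- The first direction of rescaling. -/
def e1 (c : Cone) : Fin 2 ⊕ Fin 3 → ℂ := Sum.elim c.u ![4 * c.v 0, 6 * c.v 1, 0]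

/-- The second direction of rescaling. -/
def e2 (c : Cone) : Fin 2 ⊕ Fin 3 → ℂ := Sum.elim 0 c.v

/-- The matrix with given rows. -/
def rows (a b p q r : Fin 2 ⊕ Fin 3 → ℂ) : Matrix (Fin 2 ⊕ Fin 3) (Fin 2 ⊕ Fin 3) ℂ :=
  Matrix.of (Sum.elim ![a, b] ![p, q, r])

theorem dot_grad (c : Cone) (ξ : Fin 2 ⊕ Fin 3 → ℂ) :
    ξ ⬝ᵥ grad c = -3 * c.v 0 ^ 2 * ξ (Sum.inr 0) + 2 * c.v 1 * c.v 2 * ξ (Sum.inr 1)
      + (c.v 1 ^ 2 - 3 * fm (c.u 0) (c.u 1) * c.v 2 ^ 2) * ξ (Sum.inr 2)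
      - (c.u 1 * (11 * c.u 0 ^ 10 + 66 * c.u 0 ^ 5 * c.u 1 ^ 5 - c.u 1 ^ 10) * ξ (Sum.inl 0)
        + c.u 0 * (c.u 0 ^ 10 + 66 * c.u 0 ^ 5 * c.u 1 ^ 5 - 11 * c.u 1 ^ 10) * ξ (Sum.inl 1))
        * c.v 2 ^ 3 := by
  unfold dotProduct
  rw [Fintype.sum_sum_type, Fin.sum_univ_two, Fin.sum_univ_three]
  unfold grad
  rw [d0, d1, d2, ds, dtt]
  ring

theorem dot_e1 (c : Cone) : e1 c ⬝ᵥ grad c = 0 := by
  have h := c.h
  rw [eval_eqn] at h
  rw [dot_grad]
  simp only [e1, Sum.elim_inr, Sum.elim_inl, Matrix.cons_val_zero, Matrix.cons_val_one,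
    Matrix.cons_val]
  unfold fm at h ⊢
  linear_combination 12 * h

theorem dot_e2 (c : Cone) : e2 c ⬝ᵥ grad c = 0 := by
  have h := c.h
  rw [eval_eqn] at h
  rw [dot_grad]
  simp only [e2, Sum.elim_inr, Sum.elim_inl, Pi.zero_apply]
  linear_combination 3 * h

theorem grad_ne (c : Cone) : grad c ≠ 0 := by
  obtain ⟨i, hi⟩ := smooth_cone c
  intro h
  exact hi (congrFun h i)

theorem rows_det_zero {c : Cone} {a b p q r : Fin 2 ⊕ Fin 3 → ℂ} (ha : a ⬝ᵥ grad c = 0)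
    (hb : b ⬝ᵥ grad c = 0) (hp : p ⬝ᵥ grad c = 0) (hq : q ⬝ᵥ grad c = 0)
    (hr : r ⬝ᵥ grad c = 0) : (rows a b p q r).det = 0 := by
  rw [← Matrix.exists_mulVec_eq_zero_iff]
  refine ⟨grad c, grad_ne c, ?_⟩
  ext i
  rcases i with i | i
  · fin_cases i
    · exact ha
    · exact hb
  · fin_cases i
    · exact hp
    · exact hq
    · exact hr

theorem rows_update (a b q r x : Fin 2 ⊕ Fin 3 → ℂ) :
    rows a b x q r = Matrix.updateRow (rows a b 0 q r) (Sum.inr 0) x := by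
  ext i j
  rcases i with i | i
  · rw [Matrix.updateRow_ne (by simp)]
    rfl
  · fin_cases i
    · exact (congrFun (Matrix.updateRow_self (M := rows a b 0 q r) (i := Sum.inr 0) (b := x)) j).symm
    · rw [Matrix.updateRow_ne (by simp)]
      rfl
    · rw [Matrix.updateRow_ne (by simp)]
      rfl

theorem rows_add (a b p p' q r : Fin 2 ⊕ Fin 3 → ℂ) :
    (rows a b (p + p') q r).det = (rows a b p q r).det + (rows a b p' q r).det := by
  rw [rows_update, rows_update a b q r p, rows_update a b q r p', Matrix.det_updateRow_add]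

theorem rows_smul (a b p q r : Fin 2 ⊕ Fin 3 → ℂ) (k : ℂ) :
    (rows a b (k • p) q r).det = k * (rows a b p q r).det := by
  rw [rows_update, rows_update a b q r p, Matrix.det_updateRow_smul]

theorem exists_dir (c : Cone) : ∃ N : Fin 2 ⊕ Fin 3 → ℂ, N ⬝ᵥ grad c = 1 := by
  obtain ⟨i, hi⟩ := Function.ne_iff.mp (grad_ne c)
  refine ⟨Pi.single i (grad c i)⁻¹, ?_⟩
  rw [single_dotProduct]
  exact inv_mul_cancel₀ hi

/-- The residue of the equation. -/
noncomputable def om (c : Cone) (ξ η : Fin 2 ⊕ Fin 3 → ℂ) : ℂ :=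
  (rows (e1 c) (e2 c) (exists_dir c).choose ξ η).det

theorem om_spec (c : Cone) (N ξ η : Fin 2 ⊕ Fin 3 → ℂ) (hξ : ξ ⬝ᵥ grad c = 0)
    (hη : η ⬝ᵥ grad c = 0) :
    (rows (e1 c) (e2 c) N ξ η).det = (N ⬝ᵥ grad c) * om c ξ η := by
  set N0 := (exists_dir c).choose with hN0
  have h0 : N0 ⬝ᵥ grad c = 1 := (exists_dir c).choose_spec
  have e : N = (N - (N ⬝ᵥ grad c) • N0) + (N ⬝ᵥ grad c) • N0 := by
    rw [sub_add_cancel]
  have hk : (N - (N ⬝ᵥ grad c) • N0) ⬝ᵥ grad c = 0 := by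
    rw [sub_dotProduct, smul_dotProduct, h0]
    simp
  have h1 : (rows (e1 c) (e2 c) (N - (N ⬝ᵥ grad c) • N0) ξ η).det = 0 :=
    rows_det_zero (dot_e1 c) (dot_e2 c) hk hξ hη
  have h2 : (rows (e1 c) (e2 c) N ξ η).det
      = (rows (e1 c) (e2 c) ((N - (N ⬝ᵥ grad c) • N0) + (N ⬝ᵥ grad c) • N0) ξ η).det := by
    rw [← e]
  rw [h2, rows_add, h1, rows_smul, zero_add]
  rfl

/-- The residue is nondegenerate. -/
theorem om_nondeg (c : Cone) (ξ : Fin 2 ⊕ Fin 3 → ℂ) (hξ : ξ ⬝ᵥ grad c = 0)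
    (h : ∀ η : Fin 2 ⊕ Fin 3 → ℂ, η ⬝ᵥ grad c = 0 → om c ξ η = 0) :
    ∃ a b : ℂ, ξ = a • e1 c + b • e2 c := by
  by_contra hn
  push Not at hn
  set S : Submodule ℂ (Fin 2 ⊕ Fin 3 → ℂ) := Submodule.span ℂ {e1 c, e2 c, ξ} with hS
  set f : (Fin 2 ⊕ Fin 3 → ℂ) →ₗ[ℂ] ℂ :=
    { toFun := fun x => x ⬝ᵥ grad c
      map_add' := fun x y => add_dotProduct x y (grad c)
      map_smul' := fun k x => smul_dotProduct k x (grad c) } with hf
  have hSr : Module.finrank ℂ S ≤ 3 := by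
    classical
    have h1 := finrank_span_finset_le_card (R := ℂ) ({e1 c, e2 c, ξ} : Finset (Fin 2 ⊕ Fin 3 → ℂ))
    have h2 : (({e1 c, e2 c, ξ} : Finset (Fin 2 ⊕ Fin 3 → ℂ)) : Set (Fin 2 ⊕ Fin 3 → ℂ))
        = {e1 c, e2 c, ξ} := by
      push_cast
      rfl
    rw [Set.finrank, h2] at h1
    exact h1.trans Finset.card_le_three
  have hK : 4 ≤ Module.finrank ℂ (LinearMap.ker f) := by
    have h1 := LinearMap.finrank_range_add_finrank_ker f
    have h2 : Module.finrank ℂ (LinearMap.range f) ≤ 1 := by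
      have := Submodule.finrank_le (LinearMap.range f)
      rwa [Module.finrank_self] at this
    have h3 : Module.finrank ℂ (Fin 2 ⊕ Fin 3 → ℂ) = 5 := by
      rw [Module.finrank_fintype_fun_eq_card]
      rfl
    rw [h3] at h1
    omega
  have hex : ∃ η : Fin 2 ⊕ Fin 3 → ℂ, η ∈ LinearMap.ker f ∧ η ∉ S := by
    by_contra! hc
    have : LinearMap.ker f ≤ S := hc
    have := Submodule.finrank_mono this
    omega
  obtain ⟨η, hη, hηS⟩ := hex
  have hη' : η ⬝ᵥ grad c = 0 := LinearMap.mem_ker.mp hη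
  obtain ⟨N, hN⟩ := exists_dir c
  have h0 := om_spec c N ξ η hξ hη'
  rw [h η hη', mul_zero, ← Matrix.exists_vecMul_eq_zero_iff] at h0
  obtain ⟨w, hw, hw'⟩ := h0
  have hsum : w (Sum.inl 0) • e1 c + w (Sum.inl 1) • e2 c + (w (Sum.inr 0) • N
      + w (Sum.inr 1) • ξ + w (Sum.inr 2) • η) = 0 := by
    rw [← hw']
    ext j
    unfold Matrix.vecMul dotProduct
    rw [Fintype.sum_sum_type, Fin.sum_univ_two, Fin.sum_univ_three]
    rfl
  have hf0 := congrArg (fun x => x ⬝ᵥ grad c) hsum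
  simp only [add_dotProduct, smul_dotProduct, dot_e1, dot_e2, hN, hξ, hη', smul_eq_mul, mul_zero,
    mul_one, add_zero, zero_add, zero_dotProduct] at hf0
  rw [hf0, zero_smul, zero_add] at hsum
  have hw4 : w (Sum.inr 2) = 0 := by
    by_contra hne
    apply hηS
    have e : η = (-(w (Sum.inr 2))⁻¹ * w (Sum.inl 0)) • e1 c
        + (-(w (Sum.inr 2))⁻¹ * w (Sum.inl 1)) • e2 c
        + (-(w (Sum.inr 2))⁻¹ * w (Sum.inr 1)) • ξ := by
      ext j
      have := congrFun hsum j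
      simp only [Pi.add_apply, Pi.smul_apply, smul_eq_mul, Pi.zero_apply] at this ⊢
      field_simp
      linear_combination this
    rw [e]
    refine add_mem (add_mem ?_ ?_) ?_
    · exact Submodule.smul_mem _ _ (Submodule.subset_span (by simp))
    · exact Submodule.smul_mem _ _ (Submodule.subset_span (by simp))
    · exact Submodule.smul_mem _ _ (Submodule.subset_span (by simp))
  rw [hw4, zero_smul, add_zero] at hsum
  have hw3 : w (Sum.inr 1) = 0 := by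
    by_contra hne
    apply hn (-(w (Sum.inr 1))⁻¹ * w (Sum.inl 0)) (-(w (Sum.inr 1))⁻¹ * w (Sum.inl 1))
    ext j
    have := congrFun hsum j
    simp only [Pi.add_apply, Pi.smul_apply, smul_eq_mul, Pi.zero_apply] at this ⊢
    field_simp
    linear_combination this
  rw [hw3, zero_smul, add_zero] at hsum
  have hw0 : w (Sum.inl 0) = 0 := by
    obtain ⟨p, hp⟩ := Function.ne_iff.mp c.hu
    have := congrFun hsum (Sum.inl p)
    simp only [e1, e2, Pi.add_apply, Pi.smul_apply, smul_eq_mul, Pi.zero_apply, Sum.elim_inl,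
      mul_zero, add_zero] at this
    exact (mul_eq_zero.mp this).resolve_right hp
  rw [hw0, zero_smul, zero_add] at hsum
  have hw1 : w (Sum.inl 1) = 0 := by
    obtain ⟨p, hp⟩ := Function.ne_iff.mp c.hv
    have := congrFun hsum (Sum.inr p)
    simp only [e2, Pi.smul_apply, smul_eq_mul, Pi.zero_apply, Sum.elim_inr] at this
    exact (mul_eq_zero.mp this).resolve_right hp
  apply hw
  ext i
  rcases i with i | i
  · fin_cases i
    · exact hw0
    · exact hw1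
  · fin_cases i
    · exact hf0
    · exact hw3
    · exact hw4

/-- The linear transformation induced by a matrix and a rescaling. -/
noncomputable def lin (l m : ℂ) (M : SL(2, ℂ)) (ξ : Fin 2 ⊕ Fin 3 → ℂ) : Fin 2 ⊕ Fin 3 → ℂ :=
  Sum.elim (l • (M.1 *ᵥ (ξ ∘ Sum.inl)))
    ![m * l ^ 4 * ξ (Sum.inr 0), m * l ^ 6 * ξ (Sum.inr 1), m * ξ (Sum.inr 2)]

/-- Its matrix. -/
noncomputable def linM (l m : ℂ) (M : SL(2, ℂ)) :
    Matrix (Fin 2 ⊕ Fin 3) (Fin 2 ⊕ Fin 3) ℂ :=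
  Matrix.fromBlocks (l • M.1) 0 0 (Matrix.diagonal ![m * l ^ 4, m * l ^ 6, m])

theorem linM_mulVec (l m : ℂ) (M : SL(2, ℂ)) (ξ : Fin 2 ⊕ Fin 3 → ℂ) :
    linM l m M *ᵥ ξ = lin l m M ξ := by
  unfold linM lin
  rw [Matrix.fromBlocks_mulVec]
  simp only [Matrix.zero_mulVec, add_zero, zero_add, Matrix.smul_mulVec]
  congr 1
  ext i
  rw [Matrix.mulVec_diagonal]
  fin_cases i <;> rfl

theorem linM_det (l m : ℂ) (M : SL(2, ℂ)) : (linM l m M).det = m ^ 3 * l ^ 12 := by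
  unfold linM
  rw [Matrix.det_fromBlocks_zero₂₁, Matrix.det_smul, Matrix.det_diagonal, M.2,
    Fin.prod_univ_three]
  simp
  ring

theorem rows_lin (l m : ℂ) (M : SL(2, ℂ)) (a b p q r : Fin 2 ⊕ Fin 3 → ℂ) :
    (rows (lin l m M a) (lin l m M b) (lin l m M p) (lin l m M q) (lin l m M r)).det
      = m ^ 3 * l ^ 12 * (rows a b p q r).det := by
  have e : rows (lin l m M a) (lin l m M b) (lin l m M p) (lin l m M q) (lin l m M r)
      = rows a b p q r * (linM l m M)ᵀ := by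
    ext i j
    rw [Matrix.mul_apply]
    have key : ∀ x : Fin 2 ⊕ Fin 3 → ℂ, lin l m M x j = ∑ k, x k * (linM l m M)ᵀ k j := by
      intro x
      rw [← linM_mulVec]
      unfold Matrix.mulVec dotProduct
      exact Finset.sum_congr rfl fun k _ => mul_comm _ _
    rcases i with i | i
    · fin_cases i
      · exact key a
      · exact key b
    · fin_cases i
      · exact key p
      · exact key q
      · exact key r
  rw [e, Matrix.det_mul, Matrix.det_transpose, linM_det]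
  ring

theorem has_deriv (c : Cone) (ξ : Fin 2 ⊕ Fin 3 → ℂ) :
    HasDerivAt (fun z : ℂ => eval (Sum.elim (fun i => c.u i + z * ξ (Sum.inl i))
      (fun i => c.v i + z * ξ (Sum.inr i))) eqn) (ξ ⬝ᵥ grad c) 0 := by
  have h : ∀ a b : ℂ, HasDerivAt (fun z : ℂ => a + z * b) b 0 := by
    intro a b
    have := ((hasDerivAt_id (0 : ℂ)).mul_const b).const_add a
    simpa using this
  have hs := h (c.u 0) (ξ (Sum.inl 0))
  have ht := h (c.u 1) (ξ (Sum.inl 1))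
  have hx := h (c.v 0) (ξ (Sum.inr 0))
  have hy := h (c.v 1) (ξ (Sum.inr 1))
  have hz := h (c.v 2) (ξ (Sum.inr 2))
  simp only [eval_eqn]
  unfold fm
  refine ((((hy.pow 2).mul hz).sub (hx.pow 3)).sub (((hs.mul ht).mul
    (((hs.pow 10).add (((hs.pow 5).const_mul 11).mul (ht.pow 5))).sub (ht.pow 10))).mul
      (hz.pow 3))).congr_deriv ?_
  rw [dot_grad]
  unfold fm
  simp
  ring

/-- Transformation of the gradient. -/
theorem grad_lin {l m : ℂ} {M : SL(2, ℂ)} (hM : Pres M) {c d : Cone}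
    (hu : d.u = l • (M.1 *ᵥ c.u))
    (hv : d.v = ![m * l ^ 4 * c.v 0, m * l ^ 6 * c.v 1, m * c.v 2])
    (ξ : Fin 2 ⊕ Fin 3 → ℂ) : lin l m M ξ ⬝ᵥ grad d = m ^ 3 * l ^ 12 * (ξ ⬝ᵥ grad c) := by
  have h1 := has_deriv d (lin l m M ξ)
  have h2 := (has_deriv c ξ).const_mul (m ^ 3 * l ^ 12)
  refine h1.unique (h2.congr_of_eventuallyEq (Filter.Eventually.of_forall fun z => ?_))
  change eval _ eqn = m ^ 3 * l ^ 12 * eval _ eqn
  rw [eval_eqn, eval_eqn]
  have eu : ∀ i, d.u i + z * lin l m M ξ (Sum.inl i)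
      = (l • (M.1 *ᵥ fun i => c.u i + z * ξ (Sum.inl i))) i := by
    intro i
    rw [hu]
    have : (fun i => c.u i + z * ξ (Sum.inl i)) = c.u + z • (ξ ∘ Sum.inl) := rfl
    rw [this, Matrix.mulVec_add, Matrix.mulVec_smul]
    simp only [lin, Sum.elim_inl, Pi.smul_apply, Pi.add_apply, smul_eq_mul]
    ring
  have ef : fm (d.u 0 + z * lin l m M ξ (Sum.inl 0)) (d.u 1 + z * lin l m M ξ (Sum.inl 1))
      = l ^ 12 * fm (c.u 0 + z * ξ (Sum.inl 0)) (c.u 1 + z * ξ (Sum.inl 1)) := by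
    rw [eu, eu, fm_smul, hM]
  rw [ef, hv]
  simp only [lin, Sum.elim_inr, Matrix.cons_val_zero, Matrix.cons_val_one, Matrix.cons_val]
  ring

theorem e1_lin {l m : ℂ} {M : SL(2, ℂ)} {c d : Cone}
    (hu : d.u = l • (M.1 *ᵥ c.u))
    (hv : d.v = ![m * l ^ 4 * c.v 0, m * l ^ 6 * c.v 1, m * c.v 2]) :
    e1 d = lin l m M (e1 c) := by
  unfold e1 lin
  rw [hu, hv]
  ext i
  rcases i with i | i
  · rfl
  · fin_cases i
    · simp
      ring
    · simp
      ring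
    · simp

theorem e2_lin {l m : ℂ} {M : SL(2, ℂ)} {c d : Cone}
    (hv : d.v = ![m * l ^ 4 * c.v 0, m * l ^ 6 * c.v 1, m * c.v 2]) :
    e2 d = lin l m M (e2 c) := by
  unfold e2 lin
  rw [hv]
  ext i
  rcases i with i | i
  · have : (Sum.elim (0 : Fin 2 → ℂ) c.v ∘ Sum.inl) = 0 := by
      ext j
      rfl
    rw [Sum.elim_inl, Sum.elim_inl, this, Matrix.mulVec_zero, smul_zero]
  · fin_cases i <;> rfl

/-- The residue is invariant. -/
theorem om_lin {l m : ℂ} (hl : l ≠ 0) (hm : m ≠ 0) {M : SL(2, ℂ)} (hM : Pres M) {c d : Cone}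
    (hu : d.u = l • (M.1 *ᵥ c.u))
    (hv : d.v = ![m * l ^ 4 * c.v 0, m * l ^ 6 * c.v 1, m * c.v 2])
    {ξ η : Fin 2 ⊕ Fin 3 → ℂ} (hξ : ξ ⬝ᵥ grad c = 0) (hη : η ⬝ᵥ grad c = 0) :
    om d (lin l m M ξ) (lin l m M η) = om c ξ η := by
  have hk : m ^ 3 * l ^ 12 ≠ 0 := mul_ne_zero (pow_ne_zero _ hm) (pow_ne_zero _ hl)
  obtain ⟨N, hN⟩ := exists_dir c
  have h1 := om_spec c N ξ η hξ hη
  have hξ' : lin l m M ξ ⬝ᵥ grad d = 0 := by rw [grad_lin hM hu hv, hξ, mul_zero]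
  have hη' : lin l m M η ⬝ᵥ grad d = 0 := by rw [grad_lin hM hu hv, hη, mul_zero]
  have h2 := om_spec d (lin l m M N) _ _ hξ' hη'
  rw [e1_lin hu hv, e2_lin (M := M) hv, rows_lin, grad_lin hM hu hv, h1, hN, mul_one, one_mul] at h2
  exact (mul_left_cancel₀ hk h2).symm

end Pool.Agent.Lib.MP_1d3ef4_gt
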